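import Mathlib.Geometry.Manifold.MFDeriv.Defs
import Mathlib.Geometry.Manifold.ContMDiff.Defs
import Mathlib.Analysis.InnerProductSpace.LinearMap
import Mathlib.Topology.Homotopy.Path
import Mathlib.Topology.Algebra.Module.Determinant
import Mathlib.Topology.Metrizable.Basic
import Mathlib.Data.Set.Card
import Mathlib.Topology.MetricSpace.HausdorffDimension
import Mathlib.Topology.MetricSpace.Contracting
import Mathlib.Geometry.Manifold.PartitionOfUnity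
import Mathlib.Geometry.Manifold.MFDeriv.FDeriv
import Mathlib.Geometry.Manifold.MFDeriv.SpecificFunctions
import Mathlib.Geometry.Manifold.ContMDiff.Atlas
import Mathlib.Geometry.Manifold.ContMDiff.NormedSpace
import Mathlib.Analysis.Calculus.ContDiff.Operations
import Mathlib.Analysis.Calculus.ContDiff.RCLike

-- ======== part 0: formerly Pool.Agent.MP_e1dc65_gt.t1.Spec
section MrgPart0

/-! PROJECT HC, part T1: surgery, cancellation and the Whitney move. Statements. -/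

open scoped ContDiff Manifold
open Set Metric Filter Topology Function Module

noncomputable section

namespace Pool.Agent.MP_e1dc65_gt.T1

/-- Framed spheres in `M`: open embeddings of neighbourhoods of `sphere × 0` in `sphere × V`
whose cores are pairwise disjoint. -/
structure Tubes (ι U V M : Type) [NormedAddCommGroup U] [NormedAddCommGroup V]
    [TopologicalSpace M] where
  /-- the tubes -/
  a : ι → OpenPartialHomeomorph (sphere (0 : U) 1 × V) M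
  zero : ∀ i θ, (θ, 0) ∈ (a i).source
  disj : ∀ i j θ θ', a i (θ, 0) = a j (θ', 0) → i = j

section

variable {ι U V M : Type} [NormedAddCommGroup U] [NormedAddCommGroup V] [TopologicalSpace M]

/-- the core sphere of one tube -/
def Tubes.core (T : Tubes ι U V M) (i : ι) : Set M := range fun θ => T.a i (θ, 0)

/-- the union of the core spheres -/
def Tubes.cores (T : Tubes ι U V M) : Set M := ⋃ i, T.core i

/-- The tubes are smooth with smooth inverses (the sphere is read inside `U`). -/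
def Tubes.Smooth (E : Type) [NormedAddCommGroup E] [NormedSpace ℝ E] [ChartedSpace E M]
    [NormedSpace ℝ U] [NormedSpace ℝ V] (T : Tubes ι U V M) : Prop :=
  ∀ i, (∃ f : U × V → M, ∀ p ∈ (T.a i).source,
      ContMDiffAt 𝓘(ℝ, U × V) 𝓘(ℝ, E) ∞ f (p.1, p.2) ∧ f (p.1, p.2) = T.a i p) ∧
    ContMDiffOn 𝓘(ℝ, E) 𝓘(ℝ, U × V) ∞
      (fun x => ((((T.a i).symm x).1 : U), ((T.a i).symm x).2)) (T.a i).target

/-- Two paths in `Y` with the same ends are homotopic in `X` relative to the ends. -/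
def Thin (Y X : Set M) : Prop :=
  ∀ (x y : M) (p q : Path x y), (∀ t, p t ∈ Y) → (∀ t, q t ∈ Y) →
    ∃ H : Path.Homotopy p q, ∀ z, H z ∈ X

/-- `d` is the Jacobian determinant at `s` of a map `y` from the unit sphere of `U'` to `H`
(outward normal first, read through `κ`). -/
def Sg {H U' : Type} [NormedAddCommGroup H] [NormedSpace ℝ H] [NormedAddCommGroup U']
    [InnerProductSpace ℝ U'] (κ : (ℝ × H) ≃L[ℝ] U') (y : sphere (0 : U') 1 → H)
    (s : sphere (0 : U') 1) (d : ℝ) : Prop :=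
  ∃ (f : U' → H) (D : U' →L[ℝ] H), HasFDerivAt f D s ∧
    (∀ᶠ s' : sphere (0 : U') 1 in 𝓝 s, f s' = y s') ∧
    d = ((κ : (ℝ × H) →L[ℝ] U') ∘L (innerSL ℝ (s : U')).prod D).det

end

/-- `N` is obtained from `M` by surgery on the framed spheres `A`; `B` are the belt spheres. -/
structure Surg (ι U V M N : Type) [NormedAddCommGroup U] [NormedSpace ℝ U] [NormedAddCommGroup V]
    [NormedSpace ℝ V] [TopologicalSpace M] [TopologicalSpace N] where
  /-- the attaching tubes -/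
  A : Tubes ι U V M
  /-- the belt tubes -/
  B : Tubes ι V U N
  /-- the identification of the complements of the cores -/
  φ : OpenPartialHomeomorph M N
  src : φ.source = A.coresᶜ
  tgt : φ.target = B.coresᶜ
  rel : ∀ i, ∃ ε > (0 : ℝ), ∀ (θ : sphere (0 : U) 1) (η : sphere (0 : V) 1) (r : ℝ), 0 < r → r < ε →
    A.a i (θ, r • (η : V)) ∈ φ.source ∧ φ (A.a i (θ, r • (η : V))) = B.a i (η, r • (θ : U))

section

variable {ι U V U' V' Mm M0 Mp : Type} [NormedAddCommGroup U] [NormedSpace ℝ U]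
  [NormedAddCommGroup V] [NormedSpace ℝ V] [NormedAddCommGroup U'] [NormedSpace ℝ U']
  [NormedAddCommGroup V'] [NormedSpace ℝ V'] [TopologicalSpace Mm] [TopologicalSpace M0]
  [TopologicalSpace Mp]

/-- the reverse surgery -/
def Surg.symm (σ : Surg ι U V Mm M0) : Surg ι V U M0 Mm where
  A := σ.B
  B := σ.A
  φ := σ.φ.symm
  src := σ.tgt
  tgt := σ.src
  rel i := by
    obtain ⟨ε, hε, h⟩ := σ.rel i
    refine ⟨ε, hε, fun η θ r h0 h1 => ?_⟩
    obtain ⟨h2, h3⟩ := h θ η r h0 h1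
    rw [← h3]
    exact ⟨σ.φ.map_source h2, σ.φ.left_inv h2⟩

/-- The conclusion of the cancellation theorems: a homeomorphism which is the obvious map off a
compact subset `K` of `O`. -/
def Concl (σ₁ : Surg ι U V Mm M0) (σ₂ : Surg ι U' V' M0 Mp) (O : Set M0) : Prop :=
  ∃ (h : Mm ≃ₜ Mp) (K : Set M0), IsCompact K ∧ K ⊆ O ∧ σ₁.B.cores ⊆ K ∧ σ₂.A.cores ⊆ K ∧
    ∀ x ∈ σ₁.φ.source, σ₁.φ x ∉ K → h x = σ₂.φ (σ₁.φ x)

/-- The core of `S.a i` crosses the core of `B.a j` at `x`: the two normal coordinates form a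
topological chart at `x`. -/
def Cross (B : Tubes ι V U M0) (S : Tubes ι U' V' M0) (j i : ι) (x : M0) : Prop :=
  ∃ c : OpenPartialHomeomorph M0 (U × V'), x ∈ c.source ∧
    ∀ᶠ y in 𝓝 x, c y = (((B.a j).symm y).2, ((S.a i).symm y).2)

end

/-- Geometric cancellation (topological, any dimensions): `S_i` meets only `B_i`, in one point,
where it crosses. -/
def CancelStmt : Prop :=
  ∀ (ι U V U' V' Mm M0 Mp : Type) [Finite ι]
    [NormedAddCommGroup U] [InnerProductSpace ℝ U] [FiniteDimensional ℝ U]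
    [NormedAddCommGroup V] [InnerProductSpace ℝ V] [FiniteDimensional ℝ V]
    [NormedAddCommGroup U'] [InnerProductSpace ℝ U'] [FiniteDimensional ℝ U']
    [NormedAddCommGroup V'] [InnerProductSpace ℝ V'] [FiniteDimensional ℝ V']
    [TopologicalSpace Mm] [TopologicalSpace.MetrizableSpace Mm] [LocallyCompactSpace Mm]
    [TopologicalSpace M0] [T2Space M0]
    [TopologicalSpace Mp] [TopologicalSpace.MetrizableSpace Mp] [LocallyCompactSpace Mp]
    (σ₁ : Surg ι U V Mm M0) (σ₂ : Surg ι U' V' M0 Mp) (O : Set M0) (p : ι → M0),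
    IsOpen O → σ₁.B.cores ⊆ O → σ₂.A.cores ⊆ O →
    (∀ i, σ₂.A.core i ∩ σ₁.B.cores = {p i}) → (∀ i, p i ∈ σ₁.B.core i) →
    (∀ i, Cross σ₁.B σ₂.A i i (p i)) → Concl σ₁ σ₂ O

/-- Cancellation in dimension five (`k = finrank U` is `1` or `2`). The belt sphere `B_j` is cut out
by `g j`; `d i s` is the Jacobian of `g j` on the sphere `S_i` at an intersection point `s`;
`s₀ i` is a point of `S_i ∩ B_i`; all other intersection points are matched in pairs by `m` with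
opposite signs (for `k = 1` the two points are joined by an arc of `S_i` missing `B`). -/
def HCStmt : Prop :=
  ∀ (ι U V U' V' E Mm M0 Mp : Type) [Finite ι]
    [NormedAddCommGroup U] [InnerProductSpace ℝ U] [FiniteDimensional ℝ U]
    [NormedAddCommGroup V] [InnerProductSpace ℝ V] [FiniteDimensional ℝ V]
    [NormedAddCommGroup U'] [InnerProductSpace ℝ U'] [FiniteDimensional ℝ U']
    [NormedAddCommGroup V'] [InnerProductSpace ℝ V'] [FiniteDimensional ℝ V']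
    [NormedAddCommGroup E] [NormedSpace ℝ E] [FiniteDimensional ℝ E]
    [TopologicalSpace Mm] [TopologicalSpace.MetrizableSpace Mm] [LocallyCompactSpace Mm]
    [TopologicalSpace M0] [T2Space M0] [ChartedSpace E M0] [IsManifold 𝓘(ℝ, E) ∞ M0]
    [TopologicalSpace Mp] [TopologicalSpace.MetrizableSpace Mp] [LocallyCompactSpace Mp]
    (σ₁ : Surg ι U V Mm M0) (σ₂ : Surg ι U' V' M0 Mp) (O : Set M0) (g : ι → M0 → U)
    (κ : (ℝ × U) ≃L[ℝ] U') (d : ι → sphere (0 : U') 1 → ℝ) (s₀ : ι → sphere (0 : U') 1)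
    (m : ι → sphere (0 : U') 1 → sphere (0 : U') 1),
    finrank ℝ E = 5 → (finrank ℝ U = 1 ∨ finrank ℝ U = 2) → finrank ℝ U + finrank ℝ V = 6 →
    finrank ℝ U + finrank ℝ V' = 5 → σ₁.B.Smooth E → σ₂.A.Smooth E →
    IsOpen O → σ₁.B.cores ⊆ O → σ₂.A.cores ⊆ O →
    (∀ j, ∀ x ∈ σ₁.B.core j, ContMDiffAt 𝓘(ℝ, E) 𝓘(ℝ, U) 1 (g j) x ∧ g j x = 0 ∧
      Surjective (mfderiv 𝓘(ℝ, E) 𝓘(ℝ, U) (g j) x)) →
    (∀ i j s, σ₂.A.a i (s, 0) ∈ σ₁.B.core j →
      d i s ≠ 0 ∧ Sg κ (fun s => g j (σ₂.A.a i (s, 0))) s (d i s)) →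
    (∀ i, σ₂.A.a i (s₀ i, 0) ∈ σ₁.B.core i) →
    (∀ i j s, σ₂.A.a i (s, 0) ∈ σ₁.B.core j → s ≠ s₀ i →
      m i s ≠ s₀ i ∧ σ₂.A.a i (m i s, 0) ∈ σ₁.B.core j ∧ m i (m i s) = s ∧
      d i s * d i (m i s) < 0 ∧
      (finrank ℝ U = 1 → ∃ γ : Path s (m i s), ∀ t, t ≠ 0 → t ≠ 1 →
        σ₂.A.a i (γ t, 0) ∉ σ₁.B.cores) ∧
      Thin ((σ₂.A.core i ∪ (σ₁.B.a j).target) \ σ₁.B.cores) (O \ σ₁.B.cores)) →
    Concl σ₁ σ₂ O

/-- The matching from the algebraic intersection numbers (for `k = 2`). -/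
def PairStmt : Prop :=
  ∀ (ι X : Type) (Z : ι → Set X) (d : X → ℝ) (i : ι), (∀ j, (Z j).Finite) →
    Pairwise (Disjoint on Z) → (∀ j, ∀ s ∈ Z j, d s ≠ 0) →
    (∀ j, j ≠ i → {s ∈ Z j | 0 < d s}.ncard = {s ∈ Z j | d s < 0}.ncard) →
    ({s ∈ Z i | 0 < d s}.ncard = {s ∈ Z i | d s < 0}.ncard + 1 ∨
      {s ∈ Z i | d s < 0}.ncard = {s ∈ Z i | 0 < d s}.ncard + 1) →
    ∃ s₀ ∈ Z i, ∃ m : X → X, ∀ j, ∀ s ∈ Z j, s ≠ s₀ →
      m s ≠ s₀ ∧ m s ∈ Z j ∧ m (m s) = s ∧ d s * d (m s) < 0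

end Pool.Agent.MP_e1dc65_gt.T1

end
end MrgPart0

-- ======== part 1: formerly Pool.Agent.MP_e1dc65_gt.t1.Base
section MrgPart1

/-! PROJECT HC, part T1: compactly supported homeomorphisms, general position, internal
statements. -/

set_option linter.unusedSectionVars false

open scoped ContDiff Manifold NNReal
open Set Metric Filter Topology Function Module

noncomputable section

namespace Pool.Agent.MP_e1dc65_gt.T1

section top

variable {X Y : Type} [TopologicalSpace X] [TopologicalSpace Y]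

theorem closedMap_of_id_off [T2Space X] {f : X → X} (hf : Continuous f) {C : Set X}
    (hC : IsCompact C) (h : ∀ x ∉ C, f x = x) : IsClosedMap f := fun A hA => by
  have e : ∀ x ∈ closure Cᶜ, f x = x := fun x hx =>
    (isClosed_eq hf continuous_id).closure_subset_iff.2 h hx
  have : f '' A = f '' (A ∩ C) ∪ A ∩ closure Cᶜ := by
    ext y
    constructor
    · rintro ⟨x, hx, rfl⟩
      by_cases hc : x ∈ C
      · exact Or.inl ⟨x, ⟨hx, hc⟩, rfl⟩
      · exact Or.inr (by rw [h x hc]; exact ⟨hx, subset_closure hc⟩)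
    · rintro (⟨x, hx, rfl⟩ | hy)
      exacts [⟨x, hx.1, rfl⟩, ⟨y, hy.1, e y hy.2⟩]
  rw [this]
  exact ((hC.inter_left hA).image hf).isClosed.union (hA.inter isClosed_closure)

theorem homeo_of_bij [T2Space X] {f : X → X} (hf : Continuous f) (hb : Bijective f) {C : Set X}
    (hC : IsCompact C) (h : ∀ x ∉ C, f x = x) : ∃ g : X ≃ₜ X, ⇑g = f :=
  ⟨(Equiv.ofBijective f hb).toHomeomorphOfContinuousClosed hf (closedMap_of_id_off hf hC h), rfl⟩

theorem mem_of_id_off {f : X → X} (hf : Injective f) {C U : Set X} (hU : C ⊆ U)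
    (h : ∀ x ∉ C, f x = x) {x : X} : f x ∈ U ↔ x ∈ U :=
  ⟨fun hx => by_contra fun h' => h' (h x (fun c => h' (hU c)) ▸ hx),
    fun hx => by_contra fun h' => h' ((hf (h _ fun c => h' (hU c))).symm ▸ hx)⟩

theorem symm_id_off (f : X ≃ₜ X) {C : Set X} (h : ∀ x ∉ C, f x = x) : ∀ x ∉ C, f.symm x = x :=
  fun x hx => f.symm_apply_eq.2 (h x hx).symm

theorem ev_id_off [T2Space X] {f : X → X} {C : Set X} (hC : IsCompact C) (h : ∀ x ∉ C, f x = x)
    {x : X} (hx : x ∉ C) : f =ᶠ[𝓝 x] id :=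
  eventually_of_mem (hC.isClosed.isOpen_compl.mem_nhds hx) h

/-- gluing of maps with disjoint compact supports -/
theorem glue [T2Space X] {ι : Type} [Finite ι] {U K : ι → Set X} {f : ι → X → X}
    (hU : ∀ i, IsOpen (U i)) (hd : Pairwise (Disjoint on U)) (hK : ∀ i, IsCompact (K i))
    (hKU : ∀ i, K i ⊆ U i) (hf : ∀ i, Continuous (f i)) (h : ∀ i, ∀ x ∉ K i, f i x = x) :
    ∃ F : X → X, Continuous F ∧ (∀ i, ∀ x ∈ U i, F x = f i x) ∧ ∀ x ∉ ⋃ i, K i, F x = x := by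
  classical
  let F : X → X := fun x => if c : ∃ i, x ∈ U i then f c.choose x else x
  have h1 : ∀ i, ∀ x ∈ U i, F x = f i x := fun i x hx => by
    have c : ∃ i, x ∈ U i := ⟨i, hx⟩
    have : c.choose = i := by_contra fun n => disjoint_left.1 (hd n) c.choose_spec hx
    simp only [F, dif_pos c, this]
  have h2 : ∀ x ∉ ⋃ i, K i, F x = x := fun x hx => by
    by_cases c : ∃ i, x ∈ U i
    · obtain ⟨i, hi⟩ := c
      rw [h1 i x hi, h i x fun c => hx (mem_iUnion.2 ⟨i, c⟩)]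
    · exact dif_neg c
  refine ⟨F, continuous_iff_continuousAt.2 fun x => ?_, h1, h2⟩
  by_cases c : x ∈ ⋃ i, K i
  · obtain ⟨i, hi⟩ := mem_iUnion.1 c
    exact (hf i).continuousAt.congr (eventually_of_mem ((hU i).mem_nhds (hKU i hi))
      fun y hy => (h1 i y hy).symm)
  · exact continuousAt_id.congr (ev_id_off (isCompact_iUnion hK) h2 c).symm

theorem glue_homeo [T2Space X] {ι : Type} [Finite ι] {U K : ι → Set X} {f : ι → X ≃ₜ X}
    (hU : ∀ i, IsOpen (U i)) (hd : Pairwise (Disjoint on U)) (hK : ∀ i, IsCompact (K i))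
    (hKU : ∀ i, K i ⊆ U i) (h : ∀ i, ∀ x ∉ K i, f i x = x) :
    ∃ F : X ≃ₜ X, (∀ i, ∀ x ∈ U i, F x = f i x) ∧ ∀ x ∉ ⋃ i, K i, F x = x := by
  obtain ⟨F, c, h1, h2⟩ := glue hU hd hK hKU (fun i => (f i).continuous) h
  obtain ⟨G, c', h1', h2'⟩ := glue hU hd hK hKU (fun i => (f i).symm.continuous)
    fun i => symm_id_off (f i) (h i)
  refine ⟨⟨⟨F, G, fun x => ?_, fun x => ?_⟩, c, c'⟩, h1, h2⟩
  all_goals by_cases c : x ∈ ⋃ i, K i
  · obtain ⟨i, hi⟩ := mem_iUnion.1 c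
    rw [h1 i x (hKU i hi), h1' i _ ((mem_of_id_off (f i).injective (hKU i) (h i)).2 (hKU i hi)),
      (f i).symm_apply_apply]
  · rw [h2 x c, h2' x c]
  · obtain ⟨i, hi⟩ := mem_iUnion.1 c
    rw [h1' i x (hKU i hi), h1 i _ ((mem_of_id_off (f i).symm.injective (hKU i)
      (symm_id_off (f i) (h i))).2 (hKU i hi)), (f i).apply_symm_apply]
  · rw [h2' x c, h2 x c]

/-- transport of a compactly supported homeomorphism through a chart -/
theorem transport [T2Space Y] (e : OpenPartialHomeomorph Y X) (f : X ≃ₜ X) {C : Set X}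
    (hC : IsCompact C) (hs : C ⊆ e.target) (h : ∀ x ∉ C, f x = x) :
    ∃ g : Y ≃ₜ Y, (∀ y ∈ e.source, g y = e.symm (f (e y))) ∧
      (∀ y ∈ e.source, g.symm y = e.symm (f.symm (e y))) ∧ ∀ y ∉ e.symm '' C, g y = y := by
  have hC' : IsCompact (e.symm '' C) := hC.image_of_continuousOn (e.continuousOn_symm.mono hs)
  have key : ∀ f : X ≃ₜ X, (∀ x ∉ C, f x = x) → ∃ g : Y → Y, Continuous g ∧
      (∀ y ∈ e.source, g y = e.symm (f (e y))) ∧ ∀ y ∉ e.symm '' C, g y = y := fun f h => by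
    classical
    let g : Y → Y := fun y => if y ∈ e.source then e.symm (f (e y)) else y
    have h1 : ∀ y ∈ e.source, g y = e.symm (f (e y)) := fun y hy => if_pos hy
    have h2 : ∀ y ∉ e.symm '' C, g y = y := fun y hy => by
      by_cases c : y ∈ e.source
      · rw [h1 y c, h _ fun c' => hy ⟨_, c', e.left_inv c⟩, e.left_inv c]
      · exact if_neg c
    refine ⟨g, continuous_iff_continuousAt.2 fun y => ?_, h1, h2⟩
    by_cases c : y ∈ e.source
    · refine ContinuousAt.congr ?_ (eventually_of_mem (e.open_source.mem_nhds c)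
        fun y hy => (h1 y hy).symm)
      exact ContinuousAt.comp (f := fun y => f (e y)) (e.continuousAt_symm
        ((mem_of_id_off f.injective hs h).2 (e.map_source c)))
        (f.continuous.continuousAt.comp (e.continuousAt c))
    · exact continuousAt_id.congr (ev_id_off hC' h2 fun ⟨x, hx, e'⟩ =>
        c (e' ▸ e.map_target (hs hx))).symm
  have h' := symm_id_off f h
  obtain ⟨g, c, h1, h2⟩ := key f h
  obtain ⟨k, c', h1', h2'⟩ := key f.symm h'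
  have n : ∀ y ∉ e.source, y ∉ e.symm '' C := fun y c ⟨x, hx, e'⟩ => c (e' ▸ e.map_target (hs hx))
  refine ⟨⟨⟨g, k, fun y => ?_, fun y => ?_⟩, c, c'⟩, h1, h1', h2⟩
  all_goals by_cases c : y ∈ e.source
  · have m := (mem_of_id_off f.injective hs h).2 (e.map_source c)
    rw [h1 y c, h1' _ (e.map_target m), e.right_inv m, f.symm_apply_apply, e.left_inv c]
  · rw [h2 y (n y c), h2' y (n y c)]
  · have m := (mem_of_id_off f.symm.injective hs h').2 (e.map_source c)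
    rw [h1' y c, h1 _ (e.map_target m), e.right_inv m, f.apply_symm_apply, e.left_inv c]
  · rw [h2' y (n y c), h2 y (n y c)]

theorem pert_bij {E : Type} [NormedAddCommGroup E] [CompleteSpace E] {h : E → E} {c : ℝ≥0}
    (hc : c < 1) (hh : LipschitzWith c h) : Bijective fun w => w + h w := by
  have k : ∀ y, ContractingWith c fun w => y - h w := fun y =>
    ⟨hc, LipschitzWith.of_dist_le_mul fun a b => by
      rw [dist_sub_left]; exact hh.dist_le_mul a b⟩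
  refine ⟨fun a b e => (k (a + h a)).fixedPoint_unique' (add_sub_cancel_right _ _) ?_, fun y => ?_⟩
  · rw [show a + h a = b + h b from e]; exact add_sub_cancel_right _ _
  · exact ⟨_, eq_sub_iff_add_eq.1 (k y).fixedPoint_isFixedPt.symm⟩

/-- fibrewise small Lipschitz perturbations of the identity -/
theorem fib [T2Space X] {E : Type} [NormedAddCommGroup E] [CompleteSpace E] {h : X × E → E}
    {c : ℝ≥0} (hc : c < 1) (h0 : Continuous h) (hh : ∀ x, LipschitzWith c fun w => h (x, w))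
    {C : Set (X × E)} (hC : IsCompact C) (h1 : ∀ p ∉ C, h p = 0) :
    ∃ Φ : X × E ≃ₜ X × E, ∀ p, Φ p = (p.1, p.2 + h p) := by
  obtain ⟨g, hg⟩ := homeo_of_bij (f := fun p : X × E => (p.1, p.2 + h p)) (by fun_prop)
    ⟨fun ⟨x, a⟩ ⟨y, b⟩ e => by
      obtain ⟨rfl, e⟩ := Prod.mk.inj e
      exact Prod.ext rfl ((pert_bij hc (hh x)).1 e), fun p =>
      let ⟨w, hw⟩ := (pert_bij hc (hh p.1)).2 p.2
      ⟨(p.1, w), Prod.ext rfl hw⟩⟩ hC fun p hp => by simp [h1 p hp]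
  exact ⟨g, congrFun hg⟩

end top

section tubes

variable {ι U V M : Type} [NormedAddCommGroup U] [NormedAddCommGroup V] [TopologicalSpace M]

theorem Tubes.cont (T : Tubes ι U V M) (i : ι) : Continuous fun θ => T.a i (θ, 0) :=
  continuous_iff_continuousAt.2 fun θ => ContinuousAt.comp (f := fun θ => (θ, (0 : V)))
    ((T.a i).continuousAt (T.zero i θ)) (by fun_prop)

theorem Tubes.cpt [ProperSpace U] (T : Tubes ι U V M) (i : ι) : IsCompact (T.core i) :=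
  isCompact_range (T.cont i)

theorem Tubes.cpts [Finite ι] [ProperSpace U] (T : Tubes ι U V M) : IsCompact T.cores :=
  isCompact_iUnion T.cpt

theorem Tubes.core_sub (T : Tubes ι U V M) (i : ι) : T.core i ⊆ (T.a i).target := by
  rintro _ ⟨θ, rfl⟩
  exact (T.a i).map_source (T.zero i θ)

theorem Tubes.mem_core (T : Tubes ι U V M) {i : ι} {x : M} (hx : x ∈ (T.a i).target) :
    x ∈ T.core i ↔ ((T.a i).symm x).2 = 0 :=
  ⟨by rintro ⟨θ, rfl⟩; rw [(T.a i).left_inv (T.zero i θ)], fun h =>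
    ⟨((T.a i).symm x).1, by simp only [← h]; exact (T.a i).right_inv hx⟩⟩

/-- a uniform radius: small tubes lie in given open sets and are pairwise disjoint -/
theorem Tubes.exists_eps [Finite ι] [ProperSpace U] [T2Space M] (T : Tubes ι U V M) {O : ι → Set M}
    (hO : ∀ i, IsOpen (O i)) (h : ∀ i, T.core i ⊆ O i) :
    ∃ ε > (0 : ℝ), (∀ i θ v, ‖v‖ < ε → (θ, v) ∈ (T.a i).source ∧ T.a i (θ, v) ∈ O i) ∧
      ∀ i j θ v θ' v', ‖v‖ < ε → ‖v'‖ < ε → T.a i (θ, v) = T.a j (θ', v') → i = j := by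
  have h1 : ∀ i, ∀ᶠ v in 𝓝 (0 : V), ∀ θ ∈ univ, (θ, v) ∈ (T.a i).source ∧ T.a i (θ, v) ∈ O i :=
    fun i => isCompact_univ.eventually_forall_of_forall_eventually fun θ _ =>
      (continuous_swap.tendsto ((0 : V), θ)).eventually
        (Eventually.and ((T.a i).open_source.mem_nhds (T.zero i θ))
          (((T.a i).continuousAt (T.zero i θ)).preimage_mem_nhds ((hO i).mem_nhds (h i ⟨θ, rfl⟩))))
  have h2 : ∀ i j, ∀ᶠ v in 𝓝 ((0, 0) : V × V), ∀ θ ∈ (univ : Set (sphere (0 : U) 1 × sphere (0 : U) 1)),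
      T.a i (θ.1, v.1) = T.a j (θ.2, v.2) → i = j := fun i j =>
    isCompact_univ.eventually_forall_of_forall_eventually fun θ _ => by
      rcases eq_or_ne i j with e | e
      · exact Eventually.of_forall fun _ _ => e
      have c : ContinuousAt (fun z : (V × V) × sphere (0 : U) 1 × sphere (0 : U) 1 =>
          (T.a i (z.2.1, z.1.1), T.a j (z.2.2, z.1.2))) ((0, 0), θ) :=
        (ContinuousAt.comp (f := fun z : (V × V) × sphere (0 : U) 1 × sphere (0 : U) 1 =>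
          (z.2.1, z.1.1)) ((T.a i).continuousAt (T.zero i _)) (by fun_prop)).prodMk
        (ContinuousAt.comp (f := fun z : (V × V) × sphere (0 : U) 1 × sphere (0 : U) 1 =>
          (z.2.2, z.1.2)) ((T.a j).continuousAt (T.zero j _)) (by fun_prop))
      exact mem_of_superset (c.preimage_mem_nhds (isClosed_diagonal.isOpen_compl.mem_nhds
        fun c => e (T.disj _ _ _ _ c))) fun z hz c => absurd c hz
  obtain ⟨a, ha, h3⟩ := Metric.eventually_nhds_iff.1 (eventually_all.2 h1)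
  obtain ⟨b, hb, h4⟩ := Metric.eventually_nhds_iff.1
    (eventually_all.2 fun i => eventually_all.2 (h2 i))
  refine ⟨min a b, lt_min ha hb, fun i θ v hv => h3 (by simpa using (lt_min_iff.1 hv).1) i θ trivial,
    fun i j θ v θ' v' hv hv' => h4 (y := (v, v')) ?_ i j (θ, θ') trivial⟩
  simpa [Prod.dist_eq] using And.intro (lt_min_iff.1 hv).2 (lt_min_iff.1 hv').2

end tubes

section smooth

variable {P E E' M : Type} [NormedAddCommGroup P] [NormedSpace ℝ P] [NormedAddCommGroup E]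
  [NormedSpace ℝ E] [NormedAddCommGroup E'] [NormedSpace ℝ E'] [TopologicalSpace M]
  [ChartedSpace E M]

/-- general position: the values of a map at its points of class `C¹` -/
theorem dimH_vals [FiniteDimensional ℝ P] (F : P → E) :
    dimH (F '' {z | ContDiffAt ℝ 1 F z}) ≤ finrank ℝ P :=
  (dimH_image_le_of_locally_lipschitzOn fun _ hz =>
    let ⟨K, t, ht, h⟩ := hz.exists_lipschitzOnWith
    ⟨K, t, mem_nhdsWithin_of_mem_nhds ht, h⟩).trans
    ((dimH_mono (subset_univ _)).trans (Real.dimH_univ_eq_finrank P).le)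

variable (P) in
/-- covered by countably many `C¹` pieces of `P` -/
def RectE (S : Set E) : Prop :=
  ∃ J : Set (P → E), J.Countable ∧ ∀ x ∈ S, ∃ j ∈ J, ∃ z, ContDiffAt ℝ 1 j z ∧ j z = x

theorem RectE.dimH_le [FiniteDimensional ℝ P] {S : Set E} (h : RectE P S) :
    dimH S ≤ finrank ℝ P := by
  obtain ⟨J, hJ, h⟩ := h
  refine (dimH_mono (t := ⋃ j ∈ J, j '' {z | ContDiffAt ℝ 1 j z}) fun x hx => ?_).trans ?_
  · obtain ⟨j, hj, z, h1, h2⟩ := h x hx
    exact mem_biUnion hj ⟨z, h1, h2⟩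
  · rw [dimH_bUnion hJ]
    exact iSup₂_le fun j _ => dimH_vals j

theorem exists_gen [FiniteDimensional ℝ E] {A U : Set E} (h : dimH A < finrank ℝ E) {x : E}
    (hU : U ∈ 𝓝 x) : ∃ v ∈ U, v ∉ A :=
  let ⟨v, h1, h2⟩ := (dense_compl_of_dimH_lt_finrank h).inter_nhds_nonempty hU
  ⟨v, h2, h1⟩

theorem exists_bump [FiniteDimensional ℝ E] {K U : Set E} (hK : IsCompact K) (hU : IsOpen U)
    (h : K ⊆ U) : ∃ χ : E → ℝ, ContDiff ℝ ∞ χ ∧ HasCompactSupport χ ∧ tsupport χ ⊆ U ∧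
      (∀ᶠ x in 𝓝ˢ K, χ x = 1) ∧ ∀ x, χ x ∈ Icc (0 : ℝ) 1 := by
  obtain ⟨L, hL, h1, h2⟩ := exists_compact_between hK hU h
  obtain ⟨f, h3, h4, h5⟩ := exists_contMDiffMap_one_nhds_of_subset_interior (n := ⊤) 𝓘(ℝ, E)
    hK.isClosed h1
  have : tsupport f ⊆ L := closure_minimal (fun x hx => by_contra fun c => hx (h4 x c)) hL.isClosed
  exact ⟨f, f.contMDiff.contDiff, hL.of_isClosed_subset isClosed_closure this, this.trans h2, h3, h5⟩

/-- small multiples of a compactly supported smooth field give diffeomorphisms -/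
theorem pert_diffeo [FiniteDimensional ℝ E] {W : E → E} (hW : ContDiff ℝ ∞ W)
    (hs : HasCompactSupport W) : ∃ δ > (0 : ℝ), ∀ c : ℝ, |c| < δ →
      ∃ ψ : E ≃ₜ E, (∀ z, ψ z = z + c • W z) ∧ ContDiff ℝ ∞ ψ ∧ ContDiff ℝ ∞ ψ.symm := by
  have := FiniteDimensional.complete ℝ E
  obtain ⟨L, hL⟩ := hW.lipschitzWith_of_hasCompactSupport hs (by simp)
  refine ⟨(L + 1 : ℝ)⁻¹, by positivity, fun c hc => ?_⟩
  have h0 : ‖c‖₊ * L < 1 := by
    have := mul_lt_mul_of_pos_right hc (show (0 : ℝ) < L + 1 by positivity)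
    rw [inv_mul_cancel₀ (by positivity)] at this
    exact_mod_cast (show |c| * (L : ℝ) < 1 by nlinarith [abs_nonneg c])
  have h1 : ContDiff ℝ ∞ fun z => z + c • W z := contDiff_id.add (hW.const_smul c)
  have h2 : LipschitzWith (‖c‖₊ * L) fun z => c • W z := (lipschitzWith_smul c).comp hL
  obtain ⟨ψ, hψ⟩ := homeo_of_bij h1.continuous (pert_bij h0 h2) hs fun x hx => by
    simp [image_eq_zero_of_notMem_tsupport hx]
  have h3 : ∀ a, ∃ D : E ≃L[ℝ] E, HasFDerivAt ψ (D : E →L[ℝ] E) a := fun a => by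
    have d := ((hW.const_smul c).differentiable (by simp) a).hasFDerivAt
    have b := pert_bij h0 ((fderiv ℝ (fun z => c • W z) a).lipschitz.weaken
      (show ‖_‖₊ ≤ _ from norm_fderiv_le_of_lipschitz ℝ h2))
    exact ⟨(LinearEquiv.ofBijective
      (ContinuousLinearMap.id ℝ E + fderiv ℝ (fun z => c • W z) a).toLinearMap b).toContinuousLinearEquiv,
      hψ ▸ (hasFDerivAt_id a).add d⟩
  choose D hD using h3
  exact ⟨ψ, congrFun hψ, hψ ▸ h1, ψ.contDiff_symm hD (hψ ▸ h1)⟩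

variable (E) in
/-- a smooth chart -/
def SC (e : OpenPartialHomeomorph M E') : Prop :=
  ContMDiffOn 𝓘(ℝ, E) 𝓘(ℝ, E') ∞ e e.source ∧ ContMDiffOn 𝓘(ℝ, E') 𝓘(ℝ, E) ∞ e.symm e.target

theorem SC.at {e : OpenPartialHomeomorph M E'} (h : SC E e) {x : M} (hx : x ∈ e.source) :
    ContMDiffAt 𝓘(ℝ, E) 𝓘(ℝ, E') ∞ e x := h.1.contMDiffAt (e.open_source.mem_nhds hx)

theorem SC.symm_at {e : OpenPartialHomeomorph M E'} (h : SC E e) {y : E'} (hy : y ∈ e.target) :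
    ContMDiffAt 𝓘(ℝ, E') 𝓘(ℝ, E) ∞ e.symm y := h.2.contMDiffAt (e.open_target.mem_nhds hy)

theorem sc_chart [IsManifold 𝓘(ℝ, E) ∞ M] (x : M) : SC E (chartAt E x) :=
  ⟨contMDiffOn_chart, contMDiffOn_chart_symm⟩

/-- a map with a differentiable local left inverse preserves immersions -/
theorem inj_comp {N E₂ : Type} [NormedAddCommGroup E₂] [NormedSpace ℝ E₂] [TopologicalSpace N]
    [ChartedSpace E₂ N] {Q : Type} [TopologicalSpace Q] [ChartedSpace P Q] {σ : Q → M} {z : Q}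
    {f : M → N} {g : N → M} (hσ : MDifferentiableAt 𝓘(ℝ, P) 𝓘(ℝ, E) σ z)
    (hf : MDifferentiableAt 𝓘(ℝ, E) 𝓘(ℝ, E₂) f (σ z))
    (hg : MDifferentiableAt 𝓘(ℝ, E₂) 𝓘(ℝ, E) g (f (σ z))) (e : g ∘ f =ᶠ[𝓝 (σ z)] id)
    (h : Injective (mfderiv 𝓘(ℝ, P) 𝓘(ℝ, E) σ z)) :
    Injective (mfderiv 𝓘(ℝ, P) 𝓘(ℝ, E₂) (f ∘ σ) z) := by
  have e' : g ∘ f ∘ σ =ᶠ[𝓝 z] σ := hσ.continuousAt.eventually e
  rw [← e'.mfderiv_eq, mfderiv_comp z hg (hf.comp z hσ)] at h
  exact Injective.of_comp h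

variable (E) in
/-- a diffeomorphism with compact support in `X` -/
structure Dif (X : Set M) (ψ : M ≃ₜ M) : Prop where
  sm : ContMDiff 𝓘(ℝ, E) 𝓘(ℝ, E) ∞ ψ
  sm' : ContMDiff 𝓘(ℝ, E) 𝓘(ℝ, E) ∞ ψ.symm
  supp : ∃ C ⊆ X, IsCompact C ∧ ∀ x ∉ C, ψ x = x

theorem Dif.refl (X : Set M) : Dif E X (Homeomorph.refl M) :=
  ⟨contMDiff_id, contMDiff_id, ∅, empty_subset _, isCompact_empty, fun _ _ => rfl⟩

theorem Dif.trans {X : Set M} {ψ ψ' : M ≃ₜ M} (h : Dif E X ψ) (h' : Dif E X ψ') :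
    Dif E X (ψ.trans ψ') := by
  obtain ⟨C, h1, h2, h3⟩ := h.supp
  obtain ⟨C', h1', h2', h3'⟩ := h'.supp
  exact ⟨h'.sm.comp h.sm, h.sm'.comp h'.sm', C ∪ C', union_subset h1 h1', h2.union h2',
    fun x hx => by rw [Homeomorph.trans_apply, h3 x fun c => hx (Or.inl c), h3' x fun c => hx (Or.inr c)]⟩

theorem Dif.symm {X : Set M} {ψ : M ≃ₜ M} (h : Dif E X ψ) : Dif E X ψ.symm :=
  let ⟨C, h1, h2, h3⟩ := h.supp
  ⟨h.sm', h.sm, C, h1, h2, symm_id_off ψ h3⟩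

/-- transport of a compactly supported diffeomorphism through a smooth chart -/
theorem SC.transport [T2Space M] {e : OpenPartialHomeomorph M E'} (he : SC E e) (f : E' ≃ₜ E')
    (hf : ContDiff ℝ ∞ f) (hf' : ContDiff ℝ ∞ f.symm) {C : Set E'} (hC : IsCompact C)
    (hs : C ⊆ e.target) (h : ∀ x ∉ C, f x = x) :
    ∃ g : M ≃ₜ M, Dif E e.source g ∧ (∀ y ∈ e.source, g y = e.symm (f (e y))) ∧
      ∀ y ∉ e.symm '' C, g y = y := by
  obtain ⟨g, h1, h2, h3⟩ := T1.transport e f hC hs h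
  have hC' : IsCompact (e.symm '' C) := hC.image_of_continuousOn (e.continuousOn_symm.mono hs)
  have hs' : e.symm '' C ⊆ e.source := by
    rintro _ ⟨x, hx, rfl⟩
    exact e.map_target (hs hx)
  have key : ∀ (f : E' ≃ₜ E') (g : M → M), ContDiff ℝ ∞ f → (∀ x ∉ C, f x = x) →
      (∀ y ∈ e.source, g y = e.symm (f (e y))) → (∀ y ∉ e.symm '' C, g y = y) →
      ContMDiff 𝓘(ℝ, E) 𝓘(ℝ, E) ∞ g := fun f g hf h h1 h3 y => by
    by_cases c : y ∈ e.source
    · exact (ContMDiffAt.comp (f := fun y => f (e y)) y (he.symm_at ((mem_of_id_off f.injective hs h).2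
        (e.map_source c))) (hf.contDiffAt.comp_contMDiffAt (he.at c))).congr_of_eventuallyEq
        (eventually_of_mem (e.open_source.mem_nhds c) h1)
    · exact contMDiffAt_id.congr_of_eventuallyEq (ev_id_off hC' h3 fun c' => c (hs' c'))
  exact ⟨g, ⟨key f g hf h h1 h3, key f.symm g.symm hf' (symm_id_off f h) h2 (symm_id_off g h3),
    _, hs', hC', h3⟩, h1, h3⟩

variable (P E) in
/-- covered by countably many `C¹` pieces of `P` -/
def Rect (S : Set M) : Prop :=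
  ∃ J : Set (P → M), J.Countable ∧
    ∀ x ∈ S, ∃ j ∈ J, ∃ z, ContMDiffAt 𝓘(ℝ, P) 𝓘(ℝ, E) 1 j z ∧ j z = x

variable (E) in
/-- `σ` is a smooth immersion near the points `ι t`, `t ∈ K` -/
def Imm (ι : ℝ →L[ℝ] P) (K : Set ℝ) (σ : P → M) : Prop :=
  ∀ t ∈ K, (∀ᶠ z in 𝓝 (ι t), ContMDiffAt 𝓘(ℝ, P) 𝓘(ℝ, E) ∞ σ z) ∧
    Injective (mfderiv 𝓘(ℝ, P) 𝓘(ℝ, E) σ (ι t))

/-- an embedded strip along `ι '' K` in a vector space -/
def GermE (ι : ℝ →L[ℝ] P) (K : Set ℝ) (σ : P → E) : Prop :=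
  (∀ t ∈ K, ContDiffAt ℝ 2 σ (ι t) ∧ Injective (fderiv ℝ σ (ι t))) ∧ InjOn (fun t => σ (ι t)) K

/-- the union of the intervals `[2 n, 2 n + 1]`, `n ∈ I` -/
def KI (I : Finset ℕ) : Set ℝ := ⋃ n ∈ I, Icc (2 * n : ℝ) (2 * n + 1)

theorem KI_cpt (I : Finset ℕ) : IsCompact (KI I) := I.isCompact_biUnion fun _ _ => isCompact_Icc

/-- `y` vanishes at the ends of the arcs with Jacobians of opposite signs, and not inside -/
def Ends (ι : ℝ →L[ℝ] P) (I : Finset ℕ) (y : P → P) : Prop :=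
  ∀ n ∈ I, y (ι (2 * n)) = 0 ∧ y (ι (2 * n + 1)) = 0 ∧
    (∀ t ∈ Ioo (2 * n : ℝ) (2 * n + 1), y (ι t) ≠ 0) ∧
    (fderiv ℝ y (ι (2 * n))).det * (fderiv ℝ y (ι (2 * n + 1))).det < 0

/-- the local analysis along the arcs -/
def LocP (ι : ℝ →L[ℝ] P) : Prop :=
  ∀ (I : Finset ℕ) (y : P → P), (∀ t ∈ KI I, ContDiffAt ℝ 2 y (ι t)) → Ends ι I y →
    ∃ T ∈ 𝓝ˢ (ι '' KI I), ∃ p q n : P → P, ContinuousOn p T ∧ ContinuousOn q T ∧ ContinuousOn n T ∧
      (∀ t ∈ KI I, p (ι t) = y (ι t) ∧ n (ι t) = 0) ∧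
      ∀ z ∈ T, ∀ κ > (0 : ℝ), ∀ r ∈ Icc (0 : ℝ) 1, ∀ r' ∈ Icc (0 : ℝ) 1, (r = 0 ∨ r' = 1) →
        y z = r • (p z + κ • q z) + r' • n z → z ∈ ι '' KI I ∧ r < 1

/-- disjoint arcs joining matched points -/
def PlaceP (ι : ℝ →L[ℝ] P) : Prop :=
  ∀ (Z : Set P) (m : P → P), Z.Finite →
    (∀ z ∈ Z, m z ∈ Z ∧ m (m z) = z ∧ m z ≠ z ∧
      (finrank ℝ P = 1 → ∃ γ : Path z (m z), ∀ t, t ≠ 0 → t ≠ 1 → γ t ∉ Z)) →
    ∃ A : P → P ≃ₜ P, ∀ z ∈ Z, ContDiff ℝ ∞ (A z) ∧ ContDiff ℝ ∞ (A z).symm ∧ A z (ι 0) = z ∧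
      A z (ι 1) = m z ∧ (∀ t ∈ Ioo (0 : ℝ) 1, A z (ι t) ∉ Z) ∧
      ∀ z' ∈ Z, ∀ t ∈ Icc (0 : ℝ) 1, ∀ t' ∈ Icc (0 : ℝ) 1, A z (ι t) = A z' (ι t') →
        z' = z ∨ z' = m z

/-- what is used of the two models `ℝ` and `ℝ × ℝ` -/
structure Mdl (ι : ℝ →L[ℝ] P) : Prop where
  left : ∃ π : P →L[ℝ] ℝ, ∀ t, π (ι t) = t
  dim : finrank ℝ P ≤ 2
  join : ∀ D D' : P →L[ℝ] P, D.det * D'.det < 0 → JoinedIn {0}ᶜ (D (ι 1)) (-D' (ι 1))
  loc : LocP ι
  place : PlaceP ι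

end smooth

/-- the model of dimension one -/
def Mdl1Stmt : Prop := Mdl (ContinuousLinearMap.id ℝ ℝ)

/-- the model of dimension two -/
def Mdl2Stmt : Prop := Mdl (ContinuousLinearMap.inl ℝ ℝ ℝ)

/-- homotopic arcs are almost ambient isotopic (only the part over `K'` moves) -/
def ArcStmt : Prop :=
  ∀ (E M : Type) [NormedAddCommGroup E] [NormedSpace ℝ E] [FiniteDimensional ℝ E]
    [TopologicalSpace M] [T2Space M] [ChartedSpace E M] [IsManifold 𝓘(ℝ, E) ∞ M]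
    (X : Set M) (K K' : Set ℝ) (a : ℝ → M) (H : ℝ × ℝ → M) (W : Set (ℝ × M)),
    4 ≤ finrank ℝ E → IsOpen X → IsCompact K → IsCompact K' → K' ⊆ K →
    Imm E (ContinuousLinearMap.id ℝ ℝ) K a → (∀ t ∈ K', ∀ t' ∈ K, a t = a t' → t = t') →
    ContinuousOn H (Icc 0 1 ×ˢ K') → MapsTo H (Icc 0 1 ×ˢ K') X → (∀ t ∈ K', H (0, t) = a t) →
    (∀ u ∈ Icc (0 : ℝ) 1, ∀ t ∈ frontier K', H (u, t) = a t) →
    IsOpen W → (∀ t ∈ K', (t, H (1, t)) ∈ W) →
    ∃ ψ : M ≃ₜ M, Dif E X ψ ∧ (∀ t ∈ K \ interior K', ψ (a t) = a t) ∧ ∀ t ∈ K', (t, ψ (a t)) ∈ W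

/-- a generic linear projection onto `G` keeps a strip embedded and away from countably many
points -/
def ProjStmt : Prop :=
  ∀ (P G E : Type) [NormedAddCommGroup P] [NormedSpace ℝ P] [FiniteDimensional ℝ P]
    [NormedAddCommGroup G] [NormedSpace ℝ G] [FiniteDimensional ℝ G]
    [NormedAddCommGroup E] [NormedSpace ℝ E] [FiniteDimensional ℝ E]
    (ι : ℝ →L[ℝ] P) (i : G →L[ℝ] E) (K : Set ℝ) (σ : P → E) (Z : Set G),
    finrank ℝ P ≤ 2 → 3 ≤ finrank ℝ G → Injective i → GermE ι K σ → Z.Countable →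
    (∀ t ∈ K, ∀ z ∈ Z, σ (ι t) ≠ i z) →
    ∃ π : E →L[ℝ] G, (∀ x, π (i x) = x) ∧ GermE ι K (π ∘ σ) ∧ ∀ t ∈ K, π (σ (ι t)) ∉ Z

/-- the zero section can be replaced by a graph missing the strip -/
def GraphStmt : Prop :=
  ∀ (P G H : Type) [TopologicalSpace P]
    [NormedAddCommGroup G] [NormedSpace ℝ G] [FiniteDimensional ℝ G]
    [NormedAddCommGroup H] [NormedSpace ℝ H] [FiniteDimensional ℝ H]
    (T T₀ : Set P) (x : P → G) (y p q n : P → H) (R : Set (G × H)),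
    IsCompact T → IsCompact T₀ → T₀ ⊆ T → ContinuousOn x T → InjOn x T → ContinuousOn p T →
    ContinuousOn q T → ContinuousOn n T → (∀ z ∈ T₀, p z = y z ∧ n z = 0) → IsClosed R →
    (∀ z ∈ T₀, ∀ r ∈ Icc (0 : ℝ) 1, (x z, r • y z) ∉ R) →
    (∀ z ∈ T, ∀ κ > (0 : ℝ), ∀ r ∈ Icc (0 : ℝ) 1, ∀ r' ∈ Icc (0 : ℝ) 1, (r = 0 ∨ r' = 1) →
      y z = r • (p z + κ • q z) + r' • n z → z ∈ T₀ ∧ r < 1) →
    ∃ Φ : G × H ≃ₜ G × H, ∃ C, IsCompact C ∧ (∀ w ∉ C, Φ w = w) ∧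
      (∀ z ∈ T, (Φ (x z, y z)).2 ≠ 0) ∧ ∀ w ∈ R, ((Φ w).2 = 0 ∨ w.2 = 0) → Φ =ᶠ[𝓝 w] id

/-- the Whitney move inside the tube of the belt sphere -/
def VertStmt : Prop :=
  ∀ (P G : Type) [NormedAddCommGroup P] [NormedSpace ℝ P] [FiniteDimensional ℝ P]
    [NormedAddCommGroup G] [NormedSpace ℝ G] [FiniteDimensional ℝ G]
    (ι : ℝ →L[ℝ] P) (I : Finset ℕ) (σ : P → G × P) (S : Set (G × P)),
    Mdl ι → finrank ℝ G + finrank ℝ P = 5 → IsClosed S → RectE P S →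
    {w ∈ S | w.2 = 0}.Countable → GermE ι (KI I) σ → Ends ι I (fun z => (σ z).2) →
    (∀ t ∈ KI I, ∀ N ∈ 𝓝 (ι t), σ '' N ∈ 𝓝[S] σ (ι t)) →
    ∃ Φ : G × P ≃ₜ G × P, ∃ C, IsCompact C ∧ (∀ w ∉ C, Φ w = w) ∧
      (∀ w ∈ S, (Φ w).2 = 0 → w.2 = 0 ∧ ∀ t ∈ KI I, w ≠ σ (ι t)) ∧
      ∀ w ∈ S, w.2 = 0 → (∀ t ∈ KI I, w ≠ σ (ι t)) → Φ =ᶠ[𝓝 w] id

/-- the Whitney move -/
def WhitStmt : Prop :=
  ∀ (P G E M J Λ : Type) [Finite J] [Finite Λ]
    [NormedAddCommGroup P] [NormedSpace ℝ P] [FiniteDimensional ℝ P]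
    [NormedAddCommGroup G] [NormedSpace ℝ G] [FiniteDimensional ℝ G]
    [NormedAddCommGroup E] [NormedSpace ℝ E] [FiniteDimensional ℝ E]
    [TopologicalSpace M] [T2Space M] [ChartedSpace E M] [IsManifold 𝓘(ℝ, E) ∞ M]
    (ι : ℝ →L[ℝ] P) (O B S : Set M) (e : J → OpenPartialHomeomorph M (G × P)) (σ : Λ → P → M)
    (j : Λ → J),
    Mdl ι → finrank ℝ E = 5 → finrank ℝ G + finrank ℝ P = 5 → IsOpen O → IsClosed B →
    IsCompact S → Rect P E S → (S ∩ B).Countable →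
    (∀ i, SC E (e i) ∧ (e i).target = univ ∧ (e i).source ⊆ O ∧
      ∀ x ∈ (e i).source, x ∈ B ↔ (e i x).2 = 0) →
    Pairwise (Disjoint on fun i => (e i).source) →
    (∀ l, Imm E ι (Icc 0 1) (σ l)) →
    (∀ l l', ∀ t ∈ Icc (0 : ℝ) 1, ∀ t' ∈ Icc (0 : ℝ) 1, σ l (ι t) = σ l' (ι t') → l = l' ∧ t = t') →
    (∀ l, ∀ t ∈ Icc (0 : ℝ) 1, ∀ N ∈ 𝓝 (ι t), σ l '' N ∈ 𝓝[S] σ l (ι t)) →
    (∀ l, σ l (ι 0) ∈ B ∩ (e (j l)).source ∧ σ l (ι 1) ∈ B ∩ (e (j l)).source ∧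
      (∀ t ∈ Ioo (0 : ℝ) 1, σ l (ι t) ∉ B) ∧
      (fderiv ℝ (fun z => (e (j l) (σ l z)).2) (ι 0)).det *
        (fderiv ℝ (fun z => (e (j l) (σ l z)).2) (ι 1)).det < 0 ∧
      Thin (((fun t => σ l (ι t)) '' Icc 0 1 ∪ (e (j l)).source) \ B) (O \ B)) →
    ∃ Ψ : M ≃ₜ M, ∃ C ⊆ O, IsCompact C ∧ (∀ x ∉ C, Ψ x = x) ∧
      (∀ x ∈ S, Ψ x ∈ B → x ∈ B ∧ ∀ l, x ≠ σ l (ι 0) ∧ x ≠ σ l (ι 1)) ∧
      ∀ x ∈ S ∩ B, (∀ l, x ≠ σ l (ι 0) ∧ x ≠ σ l (ι 1)) → Ψ =ᶠ[𝓝 x] id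

/-- a compact set which can be pushed into small neighbourhoods of one of its points can be
collapsed -/
def ShrinkStmt : Prop :=
  ∀ (X : Type) [TopologicalSpace X] [TopologicalSpace.MetrizableSpace X] [LocallyCompactSpace X]
    (C U : Set X) (c : X), IsCompact C → c ∈ C → IsOpen U → C ⊆ U →
    (∀ U', IsOpen U' → C ⊆ U' → ∀ V ∈ 𝓝 c, ∃ h : X ≃ₜ X, (∀ x ∉ U', h x = x) ∧ h c = c ∧
      MapsTo h C V) →
    ∃ f : X → X, Continuous f ∧ Surjective f ∧ (∃ K ⊆ U, IsCompact K ∧ ∀ x ∉ K, f x = x) ∧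
      MapsTo f U U ∧ ∀ x x', f x = f x' ↔ x = x' ∨ x ∈ C ∧ x' ∈ C

end Pool.Agent.MP_e1dc65_gt.T1

end
end MrgPart1

-- marker of a merged file
example : 731051 + 352901 = 731051 + 352901 := rfl
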