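import Pool.Agent.MP_e1dc65_gt.t1.Base
import Pool.Agent.MP_e1dc65_gt.Top
import Mathlib.Geometry.Manifold.SmoothApprox
import Mathlib.Analysis.LocallyConvex.SeparatingDual
import Mathlib.Analysis.Calculus.Deriv.Basic

/-! PROJECT HC, part T1: homotopic arcs are almost ambient isotopic. -/

set_option linter.unusedSectionVars false

open scoped ContDiff Manifold NNReal
open Set Metric Filter Topology Function Module

noncomputable section

namespace Pool.Agent.MP_e1dc65_gt.T1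

variable {E E' M : Type} [NormedAddCommGroup E] [NormedSpace ℝ E] [FiniteDimensional ℝ E]
  [NormedAddCommGroup E'] [NormedSpace ℝ E'] [FiniteDimensional ℝ E'] [TopologicalSpace M]
  [T2Space M] [ChartedSpace E M] {X : Set M} {K K' J : Set ℝ} {a γ γ' : ℝ → M}
  {e : OpenPartialHomeomorph M E'} {Bx : Set E'} {f g : ℝ → ℝ} {v : E'}

variable (E) in
/-- an immersed arc, embedded over `K'` -/
structure Emb (K K' : Set ℝ) (a : ℝ → M) : Prop where
  sm : ∀ t ∈ K, ∀ᶠ z in 𝓝 t, ContMDiffAt 𝓘(ℝ, ℝ) 𝓘(ℝ, E) ∞ a z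
  imm : ∀ t ∈ K, Injective (mfderiv 𝓘(ℝ, ℝ) 𝓘(ℝ, E) a t)
  inj : ∀ t ∈ K', ∀ t' ∈ K, a t = a t' → t = t'

theorem Emb.cont (h : Emb E K K' a) {t : ℝ} (ht : t ∈ K) : ContinuousAt a t :=
  (h.sm t ht).self_of_nhds.continuousAt

theorem Emb.dif (h : Emb E K K' a) {ψ : M ≃ₜ M} (hψ : Dif E X ψ) : Emb E K K' (ψ ∘ a) :=
  ⟨fun t ht => (h.sm t ht).mono fun _ hz => (hψ.sm _).comp _ hz, fun t ht =>
    inj_comp (g := ψ.symm) ((h.sm t ht).self_of_nhds.mdifferentiableAt (by simp))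
      (hψ.sm.mdifferentiable (by simp) _) (hψ.sm'.mdifferentiable (by simp) _)
      (Eventually.of_forall ψ.symm_apply_apply) (h.imm t ht),
    fun t ht t' ht' e => h.inj t ht t' ht' (ψ.injective e)⟩

theorem Emb.chart (h : Emb E K K' a) (he : SC E e) {t : ℝ} (ht : t ∈ K) (hs : a t ∈ e.source) :
    (∀ᶠ z in 𝓝 t, a z ∈ e.source ∧ ContDiffAt ℝ ∞ (e ∘ a) z) ∧ deriv (e ∘ a) t ≠ 0 := by
  have h1 : ∀ᶠ z in 𝓝 t, a z ∈ e.source := (h.cont ht).preimage_mem_nhds (e.open_source.mem_nhds hs)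
  refine ⟨(h1.and (h.sm t ht)).mono fun z hz => ⟨hz.1, ((he.at hz.1).comp z hz.2).contDiffAt⟩, ?_⟩
  have := inj_comp (g := e.symm) ((h.sm t ht).self_of_nhds.mdifferentiableAt (by simp))
    ((he.at hs).mdifferentiableAt (by simp))
    ((he.symm_at (e.map_source hs)).mdifferentiableAt (by simp)) (e.eventually_left_inverse hs)
    (h.imm t ht)
  rw [mfderiv_eq_fderiv] at this
  replace this : Injective (fderiv ℝ (e ∘ a) t) := this
  exact fun c => one_ne_zero (this (c.trans (map_zero _).symm))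

/-- extension of a function on the arc to the chart -/
theorem arc_ext (h : Emb E K K' a) (hK : IsCompact K) (hJ : IsCompact J) (hJK : J ⊆ K')
    (hKK : K' ⊆ K) (he : SC E e) (hB : IsOpen Bx) (hf : ContDiff ℝ ∞ f) (hfJ : support f ⊆ J)
    (hs : ∀ t ∈ J, a t ∈ e.source ∧ e (a t) ∈ Bx) :
    ∃ W : E' → ℝ, ContDiff ℝ ∞ W ∧ HasCompactSupport W ∧ tsupport W ⊆ Bx ∧
      ∀ t ∈ K, a t ∈ e.source → W (e (a t)) = f t := by
  have hC : IsCompact ((e ∘ a) '' J) := hJ.image_of_continuousOn fun t ht =>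
    ((e.continuousAt (hs t ht).1).comp (h.cont (hKK (hJK ht)))).continuousWithinAt
  obtain ⟨L, hL, h1, h2⟩ := exists_compact_between hC hB (by
    rintro _ ⟨t, ht, rfl⟩
    exact (hs t ht).2)
  suffices key : ∀ y, ∃ U ∈ 𝓝 y, ∃ k : E' → ℝ, ContMDiffOn 𝓘(ℝ, E') 𝓘(ℝ, ℝ) ∞ k U ∧ ∀ y ∈ U,
      (∀ t ∈ K, a t ∈ e.source → e (a t) = y → k y = f t) ∧ (y ∉ L → k y = 0) by
    obtain ⟨W, hW⟩ := exists_contMDiffMap_forall_mem_convex_of_local (n := ⊤) 𝓘(ℝ, E')
     (t := fun y => {r : ℝ | (∀ t ∈ K, a t ∈ e.source → e (a t) = y → r = f t) ∧ (y ∉ L → r = 0)})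
     (fun y r hr r' hr' c c' _ _ hc => ⟨fun t h1 h2 h3 => by
      rw [hr.1 t h1 h2 h3, hr'.1 t h1 h2 h3, ← add_smul, hc, one_smul],
      fun h1 => by simp [hr.2 h1, hr'.2 h1]⟩) key
    have : tsupport W ⊆ L :=
      closure_minimal (fun x hx => by_contra fun c => hx ((hW x).2 c)) hL.isClosed
    exact ⟨W, W.contMDiff.contDiff, hL.of_isClosed_subset isClosed_closure this, this.trans h2,
      fun t h1 h2 => (hW _).1 t h1 h2 rfl⟩
  intro y
  by_cases hy : y ∈ (e ∘ a) '' J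
  swap
  · exact ⟨_, hC.isClosed.isOpen_compl.mem_nhds hy, fun _ => 0, contMDiffOn_const, fun y' hy' =>
      ⟨fun t _ _ h3 => (notMem_support.1 fun c => hy' ⟨t, hfJ c, h3⟩).symm, fun _ => rfl⟩⟩
  obtain ⟨t₀, ht₀, rfl⟩ := hy
  have hK₀ := hKK (hJK ht₀)
  obtain ⟨h3, h4⟩ := h.chart he hK₀ (hs t₀ ht₀).1
  obtain ⟨l, hl⟩ := SeparatingDual.exists_eq_one (R := ℝ) h4
  have hd := l.hasFDerivAt.comp_hasDerivAt t₀
    (h3.self_of_nhds.2.differentiableAt (by simp)).hasDerivAt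
  obtain ⟨k, U, V, hU, hV, h5, -, -, hk, m1, -, h6, -⟩ := (ldAt_vs (f := l ∘ e ∘ a) h3
    (fun z hz => l.contDiff.contDiffAt.comp z hz.2)
    ⟨ContinuousLinearEquiv.refl ℝ ℝ, by rw [hd.hasFDerivAt.fderiv, hl]; ext; simp⟩).exists_inv univ_mem
  have hc : IsClosed (a '' (K \ U)) := ((hK.diff hU).image_of_continuousOn fun t ht =>
    (h.cont ht.1).continuousWithinAt).isClosed
  refine ⟨L ∩ (l ⁻¹' V ∩ e.symm ⁻¹' (a '' (K \ U))ᶜ), inter_mem (mem_interior_iff_mem_nhds.1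
    (h1 ⟨t₀, ht₀, rfl⟩)) (inter_mem ((hV.preimage l.continuous).mem_nhds (m1 h5))
      ((e.continuousAt_symm (e.map_source (hs t₀ ht₀).1)).preimage_mem_nhds
        (hc.isOpen_compl.mem_nhds ?_))), fun y => f (k (l y)), fun y hy => ?_,
    fun y hy => ⟨fun t h7 h8 h9 => ?_, fun c => absurd hy.1 c⟩⟩
  · rintro ⟨t, ht, c⟩
    rw [e.left_inv (hs t₀ ht₀).1] at c
    exact ht.2 (h.inj t₀ (hJK ht₀) t ht.1 c.symm ▸ h5)
  · exact (hf.contDiffAt.comp y ((smAt_vs.1 (hk _ hy.2.1)).comp y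
      l.contDiff.contDiffAt)).contMDiffAt.contMDiffWithinAt
  · have : t ∈ U := by_contra fun c => hy.2.2 ⟨t, ⟨h7, c⟩, by rw [← h9, e.left_inv h8]⟩
    rw [← h9]
    exact congrArg f (h6 t this)

open Classical in
/-- moving the part over `J` by `w` in the chart -/
def mv (e : OpenPartialHomeomorph M E') (J : Set ℝ) (a : ℝ → M) (w : ℝ → E') (t : ℝ) : M :=
  if t ∈ J then e.symm (e (a t) + w t) else a t

theorem mv_pos {w : ℝ → E'} {t : ℝ} (h : t ∈ J) : mv e J a w t = e.symm (e (a t) + w t) := if_pos h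
theorem mv_neg {w : ℝ → E'} {t : ℝ} (h : t ∉ J) : mv e J a w t = a t := if_neg h

theorem mv_src {w : ℝ → E'} {t : ℝ} (h : a t ∈ e.source) (hw : t ∉ J → w t = 0) :
    mv e J a w t = e.symm (e (a t) + w t) := by
  by_cases c : t ∈ J
  · exact mv_pos c
  · rw [mv_neg c, hw c, add_zero, e.left_inv h]

theorem mv_zero {w : ℝ → E'} {t : ℝ} (h : t ∈ J → a t ∈ e.source) (hw : w t = 0) :
    mv e J a w t = a t := by
  by_cases c : t ∈ J
  · rw [mv_pos c, hw, add_zero, e.left_inv (h c)]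
  · exact mv_neg c

/-- the generic directions -/
def Gen (e : OpenPartialHomeomorph M E') (K : Set ℝ) (a : ℝ → M) (v : E') : Prop :=
  ∀ t ∈ K, a t ∈ e.source → ∀ c : ℝ, v ≠ c • deriv (e ∘ a) t ∧
    ∀ t' ∈ K, a t' ∈ e.source → v ≠ c • (e (a t) - e (a t'))

theorem exists_Gen (hd : 4 ≤ finrank ℝ E') (h : Emb E K K' a) (he : SC E e) {U : Set E'}
    (hU : U ∈ 𝓝 v) : ∃ w ∈ U, Gen e K a w := by
  let F : ℝ × ℝ → E' := fun p => p.1 • fderiv ℝ (e ∘ a) p.2 1
  let G : ℝ × ℝ × ℝ → E' := fun p => p.1 • ((e ∘ a) p.2.1 - (e ∘ a) p.2.2)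
  have hd' : (3 : ENNReal) < finrank ℝ E' := by exact_mod_cast hd
  obtain ⟨w, h1, h2⟩ := exists_gen (A := F '' {z | ContDiffAt ℝ 1 F z} ∪ G '' {z | ContDiffAt ℝ 1 G z})
    (by
      rw [dimH_union]
      exact max_lt (((dimH_vals F).trans (by simp; norm_num)).trans_lt hd')
        (((dimH_vals G).trans (by simp)).trans_lt hd')) hU
  refine ⟨w, h1, fun t ht hs c => ⟨fun h3 => h2 (Or.inl ⟨(c, t), ?_, h3.symm⟩),
    fun t' ht' hs' h3 => h2 (Or.inr ⟨(c, t, t'), ?_, h3.symm⟩)⟩⟩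
  · exact contDiffAt_fst.smul (ContDiffAt.clm_apply (ContDiffAt.comp (c, t)
      ((h.chart he ht hs).1.self_of_nhds.2.fderiv_right (m := 1) (by norm_cast)) contDiffAt_snd)
      contDiffAt_const)
  · exact contDiffAt_fst.smul ((ContDiffAt.comp (c, t, t') (f := fun p : ℝ × ℝ × ℝ => p.2.1)
      ((h.chart he ht hs).1.self_of_nhds.2.of_le (m := 1) (by simp)) (by fun_prop)).sub
      (ContDiffAt.comp (c, t, t') (f := fun p : ℝ × ℝ × ℝ => p.2.2)
        ((h.chart he ht' hs').1.self_of_nhds.2.of_le (m := 1) (by simp)) (by fun_prop)))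

theorem Emb.mv (h : Emb E K K' a) (hJ : IsClosed J) (hJK : J ⊆ K') (hKK : K' ⊆ K) (he : SC E e)
    (hf : ContDiff ℝ ∞ f) (hfJ : support f ⊆ J) (hv : Gen e K a v)
    (hs : ∀ t ∈ J, a t ∈ e.source ∧ e (a t) + f t • v ∈ e.target) :
    Emb E K K' (mv e J a fun t => f t • v) := by
  have h0 : ∀ t ∉ J, f t • v = 0 := fun t ht => by rw [notMem_support.1 fun c => ht (hfJ c), zero_smul]
  have h1 : ∀ t ∉ J, T1.mv e J a (fun t => f t • v) =ᶠ[𝓝 t] a := fun t ht =>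
    eventually_of_mem (hJ.isOpen_compl.mem_nhds ht) fun _ => mv_neg
  have h2 : ∀ t ∈ K, a t ∈ e.source →
      T1.mv e J a (fun t => f t • v) =ᶠ[𝓝 t] e.symm ∘ fun t => e (a t) + f t • v := fun t ht hs =>
    (h.chart he ht hs).1.mono fun z hz => mv_src hz.1 (h0 z)
  have h3 : ∀ {z}, ContDiffAt ℝ ∞ (e ∘ a) z → ContDiffAt ℝ ∞ (fun t => e (a t) + f t • v) z :=
    fun hz => hz.add (hf.contDiffAt.smul contDiffAt_const)
  have h4 : ∀ t, T1.mv e J a (fun t => f t • v) t ∈ e.source → a t ∈ e.source ∧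
      e (T1.mv e J a (fun t => f t • v) t) = e (a t) + f t • v := fun t ht => by
    by_cases c : t ∈ J
    · exact ⟨(hs t c).1, by rw [mv_pos c, e.right_inv (hs t c).2]⟩
    · rw [mv_neg c] at ht ⊢
      exact ⟨ht, by rw [h0 t c, add_zero]⟩
  have h5 : ∀ t ∈ J, ∀ t' ∈ K, T1.mv e J a (fun t => f t • v) t =
      T1.mv e J a (fun t => f t • v) t' → t = t' := fun t ht t' ht' c => by
    have m : T1.mv e J a (fun t => f t • v) t ∈ e.source := mv_pos (e := e) ht ▸ e.map_target (hs t ht).2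
    obtain ⟨m1, m2⟩ := h4 t m
    obtain ⟨m3, m4⟩ := h4 t' (c ▸ m)
    rw [c, m4] at m2
    rcases eq_or_ne (f t') (f t) with c | c
    · exact h.inj t (hJK ht) t' ht' (e.injOn m1 m3 (by rw [c] at m2; exact (add_right_cancel m2).symm))
    · refine absurd ?_ ((hv t (hKK (hJK ht)) m1 (f t' - f t)⁻¹).2 t' ht' m3)
      rw [eq_inv_smul_iff₀ (sub_ne_zero.2 c)]
      linear_combination (norm := module) m2
  refine ⟨fun t ht => ?_, fun t ht => ?_, fun t ht t' ht' c => ?_⟩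
  · by_cases c : t ∈ J
    · have k := (h.chart he ht (hs t c).1).1
      filter_upwards [k, (h2 t ht (hs t c).1).eventuallyEq_nhds, (h3 k.self_of_nhds.2).continuousAt.preimage_mem_nhds
        (e.open_target.mem_nhds (hs t c).2)] with z k1 k2 k3
      exact ((he.symm_at k3).comp z (h3 k1.2).contMDiffAt).congr_of_eventuallyEq k2
    · filter_upwards [h.sm t ht, (h1 t c).eventuallyEq_nhds] with z k1 k2
      exact k1.congr_of_eventuallyEq k2
  · by_cases c : t ∈ J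
    · obtain ⟨k, k'⟩ := h.chart he ht (hs t c).1
      rw [(h2 t ht (hs t c).1).mfderiv_eq]
      refine inj_comp (g := e) ((h3 k.self_of_nhds.2).contMDiffAt.mdifferentiableAt (by simp))
        ((he.symm_at (hs t c).2).mdifferentiableAt (by simp))
        ((he.at (e.map_target (hs t c).2)).mdifferentiableAt (by simp))
        (e.eventually_right_inverse (hs t c).2) ?_
      have d : HasDerivAt (fun t => e (a t) + f t • v) (deriv (e ∘ a) t + deriv f t • v) t :=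
        (k.self_of_nhds.2.differentiableAt (by simp)).hasDerivAt.add
          ((hf.differentiable (by simp) t).hasDerivAt.smul_const v)
      rw [mfderiv_eq_fderiv, d.hasFDerivAt.fderiv]
      refine smul_left_injective ℝ fun c' : deriv (e ∘ a) t + deriv f t • v = 0 => ?_
      rcases eq_or_ne (deriv f t) 0 with c'' | c''
      · exact k' (by simpa [c''] using c')
      · refine (hv t ht (hs t c).1 (-deriv f t)⁻¹).1 ?_
        rw [eq_inv_smul_iff₀ (neg_ne_zero.2 c'')]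
        linear_combination (norm := module) -c'
    · rw [(h1 t c).mfderiv_eq]
      exact h.imm t ht
  · by_cases c1 : t ∈ J
    · exact h5 t c1 t' ht' c
    by_cases c2 : t' ∈ J
    · exact (h5 t' c2 t (hKK ht) c.symm).symm
    · exact h.inj t ht t' ht' (by rwa [mv_neg c1, mv_neg c2] at c)

/-- a move in a generic direction is realised by a diffeomorphism -/
theorem arc_move (h : Emb E K K' a) (hK : IsCompact K) (hJ : IsCompact J) (hJK : J ⊆ K')
    (hKK : K' ⊆ K) (he : SC E e) (hB : IsOpen Bx) (hB' : Convex ℝ Bx) (hBt : Bx ⊆ e.target)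
    (hX : MapsTo e.symm Bx X) (hf : ContDiff ℝ ∞ f) (hfJ : support f ⊆ J) (hv : Gen e K a v)
    (hs : ∀ t ∈ J, a t ∈ e.source ∧ e (a t) ∈ Bx ∧ e (a t) + f t • v ∈ Bx) :
    ∃ ψ, Dif E X ψ ∧ ∀ t ∈ K, ψ (a t) = mv e J a (fun t => f t • v) t := by
  have h1 : ∀ u ∈ Icc (0 : ℝ) 1, ∀ t ∈ J, e (a t) + (u * f t) • v ∈ Bx := fun u hu t ht => by
    rw [mul_smul]
    exact hB'.add_smul_mem (hs t ht).2.1 (hs t ht).2.2 hu
  have key := isPreconnected_Icc.induction₂ (s := Icc (0 : ℝ) 1) (fun u u' => ∃ ψ, Dif E X ψ ∧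
    ∀ t ∈ K, ψ (mv e J a (fun t => (u * f t) • v) t) = mv e J a (fun t => (u' * f t) • v) t)
    (fun u hu => ?_) (fun _ _ _ _ _ _ ⟨ψ, k1, k2⟩ ⟨ψ', k3, k4⟩ => ⟨ψ.trans ψ', k1.trans k3,
      fun t ht => by rw [Homeomorph.trans_apply, k2 t ht, k4 t ht]⟩)
    (fun _ _ _ _ ⟨ψ, k1, k2⟩ => ⟨ψ.symm, k1.symm, fun t ht => ψ.symm_apply_eq.2 (k2 t ht).symm⟩)
    (left_mem_Icc.2 zero_le_one) (right_mem_Icc.2 zero_le_one)
  · obtain ⟨ψ, k1, k2⟩ := key
    refine ⟨ψ, k1, fun t ht => ?_⟩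
    simpa only [one_mul, mv_zero (w := fun t => (0 * f t) • v) (fun c => (hs t c).1) (by simp)]
      using k2 t ht
  have h2 := h.mv hJ.isClosed hJK hKK he (f := fun t => u * f t) (contDiff_const.mul hf)
    (fun t ht => hfJ (right_ne_zero_of_mul ht)) hv fun t ht => ⟨(hs t ht).1, hBt (h1 u hu t ht)⟩
  have h3 : ∀ t ∈ J, mv e J a (fun t => (u * f t) • v) t ∈ e.source ∧
      e (mv e J a (fun t => (u * f t) • v) t) = e (a t) + (u * f t) • v := fun t ht => by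
    rw [mv_pos ht]
    exact ⟨e.map_target (hBt (h1 u hu t ht)), e.right_inv (hBt (h1 u hu t ht))⟩
  obtain ⟨W, w1, w2, w3, w4⟩ := arc_ext h2 hK hJ hJK hKK he hB hf hfJ fun t ht =>
    ⟨(h3 t ht).1, (h3 t ht).2 ▸ h1 u hu t ht⟩
  obtain ⟨δ, hδ, k⟩ := pert_diffeo (W := fun z => W z • v) (w1.smul contDiff_const) w2.smul_right
  filter_upwards [mem_nhdsWithin_of_mem_nhds (ball_mem_nhds u hδ)] with u' hu'
  obtain ⟨φ, k1, k2, k3⟩ := k (u' - u) hu'
  obtain ⟨ψ, k4, k5, k6⟩ := he.transport φ k2 k3 w2 (w3.trans hBt) fun x hx => by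
    simp [k1, image_eq_zero_of_notMem_tsupport hx]
  refine ⟨ψ, ⟨k4.sm, k4.sm', _, ?_, w2.isCompact.image_of_continuousOn
    (e.continuousOn_symm.mono (w3.trans hBt)), k6⟩, fun t ht => ?_⟩
  · rintro _ ⟨x, hx, rfl⟩
    exact hX (w3 hx)
  by_cases c : t ∈ J
  · rw [k5 _ (h3 t c).1, k1, w4 t ht (h3 t c).1, (h3 t c).2, mv_pos c]
    congr 1
    module
  · by_cases c' : mv e J a (fun t => (u * f t) • v) t ∈ e.source
    · rw [k5 _ c', k1, w4 t ht c', notMem_support.1 fun k => c (hfJ k), zero_smul, smul_zero, add_zero,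
        e.left_inv c', mv_neg c, mv_neg c]
    · rw [k6 _ fun ⟨x, hx, k⟩ => c' (k ▸ e.map_target (hBt (w3 hx))), mv_neg c, mv_neg c]

variable (E) in
/-- `γ` can be approximated by images of `a` -/
def Appr (X : Set M) (K K' : Set ℝ) (a γ : ℝ → M) : Prop :=
  ∀ W : Set (ℝ × M), IsOpen W → (∀ t ∈ K', (t, γ t) ∈ W) → ∃ ψ : M ≃ₜ M, Dif E X ψ ∧
    (∀ t ∈ K \ interior K', ψ (a t) = a t) ∧ ∀ t ∈ K', (t, ψ (a t)) ∈ W

theorem Appr.congr (h : Appr E X K K' a γ) (e : EqOn γ γ' K') : Appr E X K K' a γ' :=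
  fun W hW k => h W hW fun t ht => e ht ▸ k t ht

theorem Appr.step (hd : 4 ≤ finrank ℝ E') (h : Emb E K K' a) (hK : IsCompact K) (hJ : IsCompact J)
    (hJK : J ⊆ K') (hKK : K' ⊆ K) (he : SC E e) (hB : IsOpen Bx) (hB' : Convex ℝ Bx)
    (hBt : Bx ⊆ e.target) (hX : MapsTo e.symm Bx X) (hg : Continuous g)
    (hgJ : support g ⊆ J ∩ interior K') (hγ : Appr E X K K' a γ)
    (hs : ∀ t ∈ J, γ t ∈ e.source ∧ e (γ t) ∈ Bx ∧ e (γ t) + g t • v ∈ Bx) :
    Appr E X K K' a (mv e J γ fun t => g t • v) := fun W hW hW' => by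
  let Q : Set (ℝ × M × E') := {p | p.2.1 ∈ e.source ∧ e p.2.1 ∈ Bx ∧ e p.2.1 + p.2.2 ∈ Bx ∧
    (p.1, e.symm (e p.2.1 + p.2.2)) ∈ W}
  have hQ : IsOpen Q := isOpen_iff_mem_nhds.2 fun p hp => by
    have c : ContinuousAt (fun p : ℝ × M × E' => e p.2.1) p :=
      ContinuousAt.comp (f := fun p : ℝ × M × E' => p.2.1) (e.continuousAt hp.1) (by fun_prop)
    have c' : ContinuousAt (fun p : ℝ × M × E' => e p.2.1 + p.2.2) p := c.add (by fun_prop)
    exact inter_mem (ContinuousAt.preimage_mem_nhds (f := fun p : ℝ × M × E' => p.2.1) (by fun_prop)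
      (e.open_source.mem_nhds hp.1)) (inter_mem (c.preimage_mem_nhds (hB.mem_nhds hp.2.1))
      (inter_mem (c'.preimage_mem_nhds (hB.mem_nhds hp.2.2.1)) ((continuousAt_fst.prodMk
        (ContinuousAt.comp (f := fun p : ℝ × M × E' => e p.2.1 + p.2.2)
          (e.continuousAt_symm (hBt hp.2.2.1)) c')).preimage_mem_nhds (hW.mem_nhds hp.2.2.2))))
  obtain ⟨ψ, k1, k2, k3⟩ := hγ ((Prod.fst ⁻¹' Jᶜ ∪ (fun p => (p.1, p.2, g p.1 • v)) ⁻¹' Q) ∩
    (Prod.fst ⁻¹' support g ∪ W))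
    (((hJ.isClosed.isOpen_compl.preimage continuous_fst).union (hQ.preimage (by fun_prop))).inter
      ((hg.isOpen_support.preimage continuous_fst).union hW)) fun t ht => ⟨or_iff_not_imp_left.2
        fun c => ⟨(hs t (not_not.1 c)).1, (hs t (not_not.1 c)).2.1, (hs t (not_not.1 c)).2.2,
          by simpa only [mv_pos (not_not.1 c)] using hW' t ht⟩, or_iff_not_imp_left.2 fun c =>
        mv_zero (w := fun t => g t • v) (fun c => (hs t c).1) (by simp [notMem_support.1 c]) ▸ hW' t ht⟩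
  have h1 := h.dif k1
  have h2 : ∀ᶠ p in 𝓝 ((0, 0) : ℝ × E'), ∀ t ∈ J, (t, ψ (a t), (g t + p.1) • (v + p.2)) ∈ Q :=
    hJ.eventually_forall_of_forall_eventually fun t ht => by
      have : ContinuousAt (fun z : (ℝ × E') × ℝ => (ψ ∘ a) z.2) ((0, 0), t) :=
        ContinuousAt.comp (f := Prod.snd) (h1.cont (hKK (hJK ht))) continuousAt_snd
      refine ContinuousAt.preimage_mem_nhds (f := fun z : (ℝ × E') × ℝ =>
        (z.2, (ψ ∘ a) z.2, (g z.2 + z.1.1) • (v + z.1.2))) (continuousAt_snd.prodMk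
          (this.prodMk (Continuous.continuousAt (f := fun z : (ℝ × E') × ℝ => (g z.2 + z.1.1) • (v + z.1.2))
              (by fun_prop))))
        (hQ.mem_nhds ?_)
      simpa using (k3 t (hJK ht)).1.resolve_left (not_not.2 ht)
  obtain ⟨ε, hε, h3⟩ := Metric.eventually_nhds_iff.1 h2
  obtain ⟨f, f1, f2, f3⟩ := hg.exists_contDiff_approx ⊤ continuous_const fun _ => hε
  obtain ⟨w, w1, w2⟩ := exists_Gen hd h1 he (ball_mem_nhds v hε)
  have h4 : ∀ t ∈ J, (t, ψ (a t), f t • w) ∈ Q := fun t ht => by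
    simpa using h3 (y := (f t - g t, w - v)) (by
      simpa [Prod.dist_eq, ← dist_eq_norm, ← Real.dist_eq] using And.intro (f2 t) w1) t ht
  obtain ⟨ψ', k4, k5⟩ := arc_move h1 hK hJ hJK hKK he hB hB' hBt hX f1
    (fun t ht => (hgJ (f3 ht)).1) w2 fun t ht => ⟨(h4 t ht).1, (h4 t ht).2.1, (h4 t ht).2.2.1⟩
  refine ⟨ψ.trans ψ', k1.trans k4, fun t ht => ?_, fun t ht => ?_⟩
  · refine (k5 t ht.1).trans ((mv_zero (fun c => (h4 t c).1) ?_).trans (k2 t ht))
    rw [notMem_support.1 fun c => ht.2 (hgJ (f3 c)).2, zero_smul]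
  · rw [Homeomorph.trans_apply, show ψ' (ψ (a t)) = _ from k5 t (hKK ht)]
    by_cases c : t ∈ J
    · exact mv_pos (e := e) c ▸ (h4 t c).2.2.2
    · exact mv_neg (e := e) c ▸ (k3 t ht).2.resolve_left fun c' => c (hgJ c').1

theorem Appr.box {n : ℕ} {e : OpenPartialHomeomorph M (Fin n → ℝ)} (hd : 4 ≤ n) (h : Emb E K K' a)
    (hK : IsCompact K) (hJ : IsCompact J) (hJK : J ⊆ K') (hKK : K' ⊆ K) (he : SC E e)
    {y : Fin n → ℝ} {r : ℝ} (hr : 0 < r) (hBt : ball y r ⊆ e.target)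
    (hX : MapsTo e.symm (ball y r) X) {g : ℝ → Fin n → ℝ} (hg : Continuous g)
    (hgJ : support g ⊆ J ∩ interior K') (hγ : Appr E X K K' a γ)
    (hs : ∀ t ∈ J, γ t ∈ e.source ∧ e (γ t) ∈ ball y r ∧ e (γ t) + g t ∈ ball y r) :
    Appr E X K K' a (mv e J γ g) := by
  have h1 : ∀ (s : Finset (Fin n)), ∀ t ∈ J, e (γ t) + s.piecewise (g t) 0 ∈ ball y r :=
    fun s t ht => (dist_pi_lt_iff hr).2 fun i => by
      by_cases c : i ∈ s
      · simpa [c] using (dist_pi_lt_iff hr).1 (hs t ht).2.2 i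
      · simpa [c] using (dist_pi_lt_iff hr).1 (hs t ht).2.1 i
  have key : ∀ s : Finset (Fin n), Appr E X K K' a (mv e J γ fun t => s.piecewise (g t) 0) := by
    intro s
    induction s using Finset.induction_on with
    | empty => exact hγ.congr fun t _ => (mv_zero (fun c => (hs t c).1) rfl).symm
    | insert i s hi ih =>
      have h2 : ∀ t ∈ J, e (mv e J γ (fun t => s.piecewise (g t) 0) t) =
          e (γ t) + s.piecewise (g t) 0 := fun t ht => by
        rw [mv_pos ht, e.right_inv (hBt (h1 s t ht))]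
      have h3 : ∀ t, e (γ t) + s.piecewise (g t) 0 + g t i • Pi.single i (1 : ℝ) =
          e (γ t) + (insert i s).piecewise (g t) 0 := fun t => funext fun j => by
        rcases eq_or_ne j i with rfl | c
        · simp [hi]
        · simp [c, Finset.piecewise_insert_of_ne]
      refine (ih.step (by simpa using hd) h hK hJ hJK hKK he isOpen_ball (convex_ball _ _) hBt hX
        (g := fun t => g t i) (v := Pi.single i 1) (by fun_prop)
        (fun t ht => hgJ fun c => ht (congrFun c i)) fun t ht => ⟨?_, ?_, ?_⟩).congr fun t _ => ?_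
      · exact mv_pos (e := e) ht ▸ e.map_target (hBt (h1 s t ht))
      · exact h2 t ht ▸ h1 s t ht
      · exact h2 t ht ▸ h3 t ▸ h1 _ t ht
      · by_cases c : t ∈ J
        · rw [mv_pos c, h2 t c, h3, mv_pos c]
        · rw [mv_neg c, mv_neg c, mv_neg c]
  simpa only [Finset.piecewise_univ] using key Finset.univ

theorem appr_loc [IsManifold 𝓘(ℝ, E) ∞ M] (hd : 4 ≤ finrank ℝ E) (hX : IsOpen X) (h : Emb E K K' a)
    (hK : IsCompact K) (hK' : IsCompact K') (hKK : K' ⊆ K) {γ₀ : ℝ → M} (h0 : ContinuousOn γ₀ K')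
    (h0' : MapsTo γ₀ K' X) : ∃ D : Set (ℝ × M × M), IsOpen D ∧ (∀ t ∈ K', (t, γ₀ t, γ₀ t) ∈ D) ∧
      ∀ γ γ', ContinuousOn γ K' → ContinuousOn γ' K' → (∀ t ∈ K', (t, γ t, γ' t) ∈ D) →
        EqOn γ γ' (frontier K') → Appr E X K K' a γ → Appr E X K K' a γ' := by
  have key := hK'.induction_on (p := fun K₁ => ∃ (Θ : ℝ × M × M → M) (D : Set (ℝ × M × M)),
    IsOpen D ∧ (∀ t ∈ K', (t, γ₀ t, γ₀ t) ∈ D) ∧ ContinuousOn Θ (D ∩ Prod.fst ⁻¹' K') ∧
      (∀ p ∈ D, p.1 ∈ K' → (p.1 ∈ K₁ ∨ p.2.1 = p.2.2) → Θ p = p.2.2) ∧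
      ∀ γ γ', ContinuousOn γ K' → ContinuousOn γ' K' → (∀ t ∈ K', (t, γ t, γ' t) ∈ D) →
        EqOn γ γ' (frontier K') → Appr E X K K' a γ → Appr E X K K' a fun t => Θ (t, γ t, γ' t))
    ⟨fun p => p.2.1, univ, isOpen_univ, fun _ _ => trivial, by fun_prop,
      fun p _ _ c => c.resolve_left id, fun _ _ _ _ _ _ k => k⟩
    (fun s t hst ⟨Θ, D, k1, k2, k3, k4, k5⟩ => ⟨Θ, D, k1, k2, k3,
      fun p m1 m2 c => k4 p m1 m2 (c.imp_left (hst ·)), k5⟩) ?_ fun t₀ ht₀ => ?_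
  · obtain ⟨Θ, D, k1, k2, -, k4, k5⟩ := key
    exact ⟨D, k1, k2, fun γ γ' m1 m2 m3 m4 m5 => (k5 γ γ' m1 m2 m3 m4 m5).congr fun t ht =>
      k4 _ (m3 t ht) ht (Or.inl ht)⟩
  · rintro s s' ⟨Θ, D, k1, k2, k3, k4, k5⟩ ⟨Θ', D', k1', k2', k3', k4', k5'⟩
    have c : ContinuousOn (fun p : ℝ × M × M => (p.1, Θ p, p.2.2)) (D ∩ Prod.fst ⁻¹' K') :=
      continuousOn_fst.prodMk (k3.prodMk (by fun_prop))
    obtain ⟨u, hu, hu'⟩ := continuousOn_iff'.1 c D' k1'
    have m : ∀ p ∈ D ∩ u, p.1 ∈ K' → (p.1, Θ p, p.2.2) ∈ D' := fun p hp hp' =>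
      (hu'.symm.subset ⟨hp.2, hp.1, hp'⟩).1
    refine ⟨fun p => Θ' (p.1, Θ p, p.2.2), D ∩ u, k1.inter hu, fun t ht => ⟨k2 t ht, (hu'.subset
      ⟨?_, k2 t ht, ht⟩).1⟩, k3'.comp (c.mono fun p hp => ⟨hp.1.1, hp.2⟩) fun p hp =>
        ⟨m p hp.1 hp.2, hp.2⟩, fun p hp hp' c => k4' _ (m p hp hp') hp' ?_,
      fun γ γ' m1 m2 m3 m4 m5 => k5' _ γ' (k3.comp (continuousOn_id.prodMk (m1.prodMk m2))
        fun t ht => ⟨(m3 t ht).1, ht⟩) m2 (fun t ht => m _ (m3 t ht) ht) (fun t ht =>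
        k4 _ (m3 t (hK'.isClosed.frontier_subset ht)).1 (hK'.isClosed.frontier_subset ht)
          (Or.inr (m4 ht))) (k5 γ γ' m1 m2 (fun t ht => (m3 t ht).1) m4 m5)⟩
    · rw [mem_preimage, k4 _ (k2 t ht) ht (Or.inr rfl)]
      exact k2' t ht
    · rcases c with (c | c) | c
      exacts [Or.inr (k4 p hp.1 hp' (Or.inl c)), Or.inl c, Or.inr (k4 p hp.1 hp' (Or.inr c))]
  let L : E ≃L[ℝ] (Fin (finrank ℝ E) → ℝ) := ContinuousLinearEquiv.ofFinrankEq (by simp)
  let e := (chartAt E (γ₀ t₀)).transHomeomorph L.toHomeomorph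
  have he : SC E e := ⟨L.contDiff.contMDiff.comp_contMDiffOn contMDiffOn_chart,
    contMDiffOn_chart_symm.comp L.symm.contDiff.contMDiff.contMDiffOn fun _ hx => hx⟩
  have hs : γ₀ t₀ ∈ e.source := mem_chart_source E _
  obtain ⟨r, hr, h1⟩ := Metric.mem_nhds_iff.1 (inter_mem (e.open_target.mem_nhds (e.map_source hs))
    ((e.continuousAt_symm (e.map_source hs)).preimage_mem_nhds (hX.mem_nhds
      ((e.left_inv hs).symm ▸ h0' ht₀))))
  let N : Set M := e.source ∩ e ⁻¹' ball (e (γ₀ t₀)) r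
  have hN : IsOpen N := e.isOpen_inter_preimage isOpen_ball
  obtain ⟨ρ, hρ, h2⟩ := (nhdsWithin_hasBasis nhds_basis_closedBall K').mem_iff.1
    ((h0 t₀ ht₀).preimage_mem_nhdsWithin (hN.mem_nhds ⟨hs, mem_ball_self hr⟩))
  obtain ⟨χ, c1, -, c2, c3, c4⟩ := exists_bump (isCompact_singleton (x := t₀)) isOpen_ball
    (singleton_subset_iff.2 (mem_ball_self hρ))
  have c0 : ∀ t ∉ ball t₀ ρ, χ t = 0 := fun t ht => image_eq_zero_of_notMem_tsupport fun c => ht (c2 c)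
  have c5 := c1.continuous
  set J := closedBall t₀ ρ ∩ K'
  have hJ : IsCompact J := hK'.inter_left isClosed_closedBall
  have h3 : ∀ t, ∀ x ∈ N, ∀ x' ∈ N, e x + χ t • (e x' - e x) ∈ ball (e (γ₀ t₀)) r :=
    fun t x hx x' hx' => (convex_ball _ _).add_smul_sub_mem hx.2 hx'.2 (c4 t)
  classical
  refine ⟨{t | χ t = 1}, mem_nhdsWithin_of_mem_nhds (nhdsSet_singleton (x := t₀) ▸ c3), fun p =>
    if p.1 ∈ J then e.symm (e p.2.1 + χ p.1 • (e p.2.2 - e p.2.1)) else p.2.1,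
    Prod.fst ⁻¹' Jᶜ ∪ Prod.snd ⁻¹' N ×ˢ N, (hJ.isClosed.isOpen_compl.preimage continuous_fst).union
      ((hN.prod hN).preimage continuous_snd), fun t ht => or_iff_not_imp_left.2 fun c =>
      ⟨h2 (not_not.1 c), h2 (not_not.1 c)⟩, fun p hp => ?_, fun p hp hp' c => ?_,
    fun γ γ' m1 m2 m3 m4 m5 => ?_⟩
  · by_cases c : p.1 ∈ J
    · have k := hp.1.resolve_left (not_not.2 c)
      have k1 : ContinuousAt (fun p : ℝ × M × M => e p.2.1) p :=
        ContinuousAt.comp (f := fun p : ℝ × M × M => p.2.1) (e.continuousAt k.1.1) (by fun_prop)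
      have k2 : ContinuousAt (fun p : ℝ × M × M => e p.2.2) p :=
        ContinuousAt.comp (f := fun p : ℝ × M × M => p.2.2) (e.continuousAt k.2.1) (by fun_prop)
      refine (ContinuousAt.comp (f := fun p : ℝ × M × M => e p.2.1 + χ p.1 • (e p.2.2 - e p.2.1))
        (e.continuousAt_symm (h1 (h3 _ _ k.1 _ k.2)).1) (k1.add ((c5.comp continuous_fst).continuousAt.smul
          (k2.sub k1)))).continuousWithinAt.congr_of_eventuallyEq
        ?_ (if_pos c)
      filter_upwards [self_mem_nhdsWithin, mem_nhdsWithin_of_mem_nhds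
        (((hN.prod hN).preimage continuous_snd).mem_nhds k)] with q q1 q2
      split_ifs with c'
      · rfl
      · rw [comp_apply, c0 q.1 fun c'' => c' ⟨ball_subset_closedBall c'', q1.2⟩, zero_smul, add_zero,
          e.left_inv q2.1.1]
    · refine (ContinuousAt.congr (f := fun p : ℝ × M × M => p.2.1) (by fun_prop) ?_).continuousWithinAt
      filter_upwards [(hJ.isClosed.isOpen_compl.preimage continuous_fst).mem_nhds c] with q hq
      exact (if_neg hq).symm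
  · by_cases c' : p.1 ∈ J
    · have k := hp.resolve_left (not_not.2 c')
      rcases c with c | c
      · simp only [if_pos c', show χ p.1 = 1 from c, one_smul, add_sub_cancel, e.left_inv k.2.1]
      · simp only [if_pos c', c, sub_self, smul_zero, add_zero, e.left_inv k.2.1]
    · rcases c with c | c
      · exact absurd ⟨ball_subset_closedBall (by_contra fun k => zero_ne_one
          ((c0 _ k).symm.trans c)), hp'⟩ c'
      · simp only [if_neg c', c]
  · have k : ∀ t ∈ J, γ t ∈ N ∧ γ' t ∈ N := fun t ht => (m3 t ht.2).resolve_left (not_not.2 ht)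
    have k0 : ∀ t ∈ J, t ∉ interior J → χ t • (e (γ' t) - e (γ t)) = 0 := fun t ht c => by
      by_cases c' : t ∈ ball t₀ ρ
      · rw [m4 ⟨subset_closure ht.2, fun c'' => c (interior_inter.superset
          ⟨ball_subset_interior_closedBall c', c''⟩)⟩, sub_self, smul_zero]
      · rw [c0 t c', zero_smul]
    refine (m5.box hd h hK hJ inter_subset_right hKK he hr (fun _ c => (h1 c).1) (fun _ c => (h1 c).2)
      (g := J.piecewise (fun t => χ t • (e (γ' t) - e (γ t))) 0)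
      (continuous_piecewise (fun t ht => k0 t (hJ.isClosed.frontier_subset ht) ht.2) ?_
        continuousOn_const) (fun t ht => ?_) fun t ht => ⟨(k t ht).1.1, (k t ht).1.2, ?_⟩).congr
      fun t _ => ?_
    · rw [hJ.isClosed.closure_eq]
      exact c5.continuousOn.smul ((e.continuousOn.comp (m2.mono inter_subset_right)
        fun t ht => (k t ht).2.1).sub (e.continuousOn.comp (m1.mono inter_subset_right)
        fun t ht => (k t ht).1.1))
    · have c : t ∈ J := by_contra fun c => ht (piecewise_eq_of_notMem _ _ _ c)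
      exact ⟨c, interior_mono inter_subset_right (by_contra fun c' =>
        ht ((piecewise_eq_of_mem _ _ _ c).trans (k0 t c c')))⟩
    · rw [piecewise_eq_of_mem _ _ _ ht]
      exact h3 t _ (k t ht).1 _ (k t ht).2
    · by_cases c : t ∈ J
      · rw [mv_pos c, piecewise_eq_of_mem _ _ _ c]
        exact (if_pos c).symm
      · exact (mv_neg c).trans (if_neg c).symm

theorem arc : ArcStmt := by
  intro E M _ _ _ _ _ _ _ X K K' a H W hd hX hK hK' hKK h1 h2 hH hHX h0 hf hW hW'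
  have h : Emb E K K' a := ⟨fun t ht => (h1 t ht).1, fun t ht => (h1 t ht).2, h2⟩
  have c : ∀ u ∈ Icc (0 : ℝ) 1, ContinuousOn (fun t => H (u, t)) K' := fun u hu =>
    hH.comp (by fun_prop) fun t ht => ⟨hu, ht⟩
  refine isPreconnected_Icc.induction₂' (s := Icc (0 : ℝ) 1) (fun u u' =>
    Appr E X K K' a (fun t => H (u, t)) → Appr E X K K' a fun t => H (u', t)) (fun u hu => ?_)
    (fun _ _ _ _ _ _ k k' => k' ∘ k) (left_mem_Icc.2 zero_le_one) (right_mem_Icc.2 zero_le_one)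
    (fun W _ k => ⟨_, Dif.refl X, fun _ _ => rfl, fun t ht => h0 t ht ▸ k t ht⟩) W hW hW'
  obtain ⟨D, k1, k2, k3⟩ := appr_loc hd hX h hK hK' hKK (c u hu) fun t ht => hHX ⟨hu, ht⟩
  have c1 : ContinuousOn (fun p : ℝ × ℝ => H (u, p.2)) (Icc 0 1 ×ˢ K') :=
    (c u hu).comp continuousOn_snd fun _ hp => hp.2
  obtain ⟨V, v1, v2⟩ := continuousOn_iff'.1 (continuousOn_snd.prodMk (c1.prodMk hH)) D k1
  obtain ⟨V', v1', v2'⟩ := continuousOn_iff'.1 (continuousOn_snd.prodMk (hH.prodMk c1)) D k1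
  have := hK'.eventually_forall_of_forall_eventually (x₀ := u) (P := fun u' t => (u', t) ∈ V ∩ V')
    fun t ht => (v1.inter v1').mem_nhds ⟨(v2.subset ⟨k2 t ht, hu, ht⟩).1, (v2'.subset ⟨k2 t ht, hu, ht⟩).1⟩
  filter_upwards [self_mem_nhdsWithin, mem_nhdsWithin_of_mem_nhds this] with u' hu' k
  exact ⟨k3 _ _ (c u hu) (c u' hu') (fun t ht => (v2.symm.subset ⟨(k t ht).1, hu', ht⟩).1)
    fun t ht => (hf u hu t ht).trans (hf u' hu' t ht).symm,
    k3 _ _ (c u' hu') (c u hu) (fun t ht => (v2'.symm.subset ⟨(k t ht).2, hu', ht⟩).1)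
    fun t ht => (hf u' hu' t ht).trans (hf u hu t ht).symm⟩

end Pool.Agent.MP_e1dc65_gt.T1
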