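import Pool.Agent.MP_e1dc65_gt.t1.Base
import Mathlib.Geometry.Manifold.Instances.Sphere

/-! PROJECT HC, part T1: geometric cancellation. -/

set_option linter.unusedSectionVars false

open Set Metric Filter Topology Function

noncomputable section

namespace Pool.Agent.MP_e1dc65_gt.T1

namespace Cancel

theorem polar {V : Type} [NormedAddCommGroup V] [NormedSpace ℝ V] {v : V} (hv : v ≠ 0) :
    ∃ η : sphere (0 : V) 1, v = ‖v‖ • (η : V) :=
  ⟨⟨‖v‖⁻¹ • v, by simp [norm_smul, hv]⟩, by simp [smul_smul, hv]⟩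

section cor

variable {ι U V M N : Type} [NormedAddCommGroup U] [NormedSpace ℝ U] [NormedAddCommGroup V]
  [NormedSpace ℝ V] [TopologicalSpace M] [TopologicalSpace N] {σ : Surg ι U V M N}
  {I J : Set ι} {P Q : Set M} {P' Q' : Set N}

theorem core_eq (T : Tubes ι U V M) {i j : ι} {x : M} (h : x ∈ T.core i) (h' : x ∈ T.core j) :
    i = j :=
  let ⟨θ, e⟩ := h
  let ⟨θ', e'⟩ := h'
  T.disj i j θ θ' (e.trans e'.symm)

theorem src_iff (σ : Surg ι U V M N) {x : M} : x ∈ σ.φ.source ↔ ∀ i, x ∉ σ.A.core i := by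
  simp [σ.src, Tubes.cores]

theorem src_or (σ : Surg ι U V M N) (x : M) : x ∈ σ.φ.source ∨ ∃ i, x ∈ σ.A.core i := by
  simp [src_iff, or_iff_not_imp_left]

/-- `P` and `P'` correspond under the surgery and contain the cores indexed by `I` -/
structure Cor (σ : Surg ι U V M N) (I : Set ι) (P : Set M) (P' : Set N) : Prop where
  φ : ∀ x ∈ σ.φ.source, x ∈ P ↔ σ.φ x ∈ P'
  A : ∀ i, ∀ x ∈ σ.A.core i, x ∈ P ↔ i ∈ I
  B : ∀ i, ∀ y ∈ σ.B.core i, y ∈ P' ↔ i ∈ I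

theorem Cor.symm (h : Cor σ I P P') : Cor σ.symm I P' P :=
  ⟨fun y hy => by
    have := h.φ _ (σ.φ.map_target hy)
    rw [σ.φ.right_inv hy] at this
    exact this.symm, h.B, h.A⟩

theorem Cor.compl (h : Cor σ I P P') : Cor σ Iᶜ Pᶜ P'ᶜ :=
  ⟨fun x hx => (h.φ x hx).not, fun i x hx => (h.A i x hx).not, fun i x hx => (h.B i x hx).not⟩

theorem Cor.mono (h : Cor σ I P P') (h' : Cor σ J Q Q') (h1 : I ⊆ J) (h2 : P' ⊆ Q') : P ⊆ Q :=
  fun x hx => (src_or σ x).elim (fun c => (h'.φ x c).2 (h2 ((h.φ x c).1 hx)))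
    fun ⟨i, c⟩ => (h'.A i x c).2 (h1 ((h.A i x c).1 hx))

theorem exists_cor (h : ∀ i, ∀ x ∈ σ.A.core i, x ∈ P ↔ i ∈ I) : ∃ P', Cor σ I P P' :=
  ⟨{y | (y ∈ σ.φ.target ∧ σ.φ.symm y ∈ P) ∨ ∃ i ∈ I, y ∈ σ.B.core i}, fun x hx => by
    simp [σ.φ.map_source hx, σ.φ.left_inv hx, show ∀ i, σ.φ x ∉ σ.B.core i from
      (src_iff σ.symm).1 (σ.φ.map_source hx)], h, fun i y hy =>
    ⟨fun c => c.elim (fun c => absurd hy ((src_iff σ.symm).1 c.1 i))
      fun ⟨_, h1, h2⟩ => core_eq _ h2 hy ▸ h1, fun c => Or.inr ⟨i, c, hy⟩⟩⟩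

theorem exists_cor' (h : ∀ i, ∀ y ∈ σ.B.core i, y ∈ P' ↔ i ∈ I) : ∃ P, Cor σ I P P' :=
  (exists_cor (σ := σ.symm) h).imp fun _ h => h.symm

variable [Finite ι] [ProperSpace U] [ProperSpace V] [T2Space M] [T2Space N]

theorem unif (σ : Surg ι U V M N) {O : ι → Set M} {O' : ι → Set N} (hO : ∀ i, IsOpen (O i))
    (h : ∀ i, σ.A.core i ⊆ O i) (hO' : ∀ i, IsOpen (O' i)) (h' : ∀ i, σ.B.core i ⊆ O' i) :
    ∃ ε > (0 : ℝ), ∀ i,
      (∀ θ v, ‖v‖ ≤ ε → (θ, v) ∈ (σ.A.a i).source ∧ σ.A.a i (θ, v) ∈ O i) ∧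
      (∀ η u, ‖u‖ ≤ ε → (η, u) ∈ (σ.B.a i).source ∧ σ.B.a i (η, u) ∈ O' i) ∧
      ∀ (θ : sphere (0 : U) 1) (η : sphere (0 : V) 1) (r : ℝ), 0 < r → r ≤ ε →
        σ.A.a i (θ, r • (η : V)) ∈ σ.φ.source ∧
        σ.φ (σ.A.a i (θ, r • (η : V))) = σ.B.a i (η, r • (θ : U)) := by
  obtain ⟨a, ha, h1, -⟩ := σ.A.exists_eps hO h
  obtain ⟨b, hb, h2, -⟩ := σ.B.exists_eps hO' h'
  choose e he h3 using σ.rel
  obtain ⟨ε, ⟨⟨h4, h5⟩, h6⟩, h7⟩ := ((((eventually_lt_nhds ha).and (eventually_lt_nhds hb)).and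
    (eventually_all.2 fun i => eventually_lt_nhds (he i))).filter_mono
    (nhdsWithin_le_nhds (s := Ioi 0))).and self_mem_nhdsWithin |>.exists
  exact ⟨ε, h7, fun i => ⟨fun θ v hv => h1 i θ v (hv.trans_lt h4),
    fun η u hu => h2 i η u (hu.trans_lt h5), fun θ η r h0 hr => h3 i θ η r h0 (hr.trans_lt (h6 i))⟩⟩

theorem Cor.isOpen (h : Cor σ I P P') (hP : IsOpen P) : IsOpen P' := by
  refine isOpen_iff_mem_nhds.2 fun y hy => (src_or σ.symm y).elim (fun c => ?_) ?_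
  · exact mem_of_superset ((σ.φ.isOpen_inter_preimage_symm hP).mem_nhds
      ⟨c, (h.symm.φ y c).1 hy⟩) fun z hz => (h.symm.φ z hz.1).2 hz.2
  rintro ⟨i, η, rfl⟩
  have hi := (h.B i _ ⟨η, rfl⟩).1 hy
  obtain ⟨ε, hε, h1⟩ := unif σ (O := fun j => P ∪ {_x | j ∉ I}) (O' := fun _ => univ)
    (fun _ => hP.union isOpen_const) (fun j x hx => or_iff_not_imp_right.2 fun c =>
      (h.A j x hx).2 (not_not.1 c)) (fun _ => isOpen_univ) fun _ => subset_univ _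
  obtain ⟨h2, -, h3⟩ := h1 i
  refine mem_of_superset ((σ.B.a i).image_mem_nhds (σ.B.zero i η) (s := univ ×ˢ closedBall 0 ε)
    (prod_mem_nhds univ_mem (closedBall_mem_nhds _ hε))) ?_
  rintro _ ⟨⟨η, u⟩, ⟨-, hu⟩, rfl⟩
  rcases eq_or_ne u 0 with rfl | u0
  · exact (h.B i _ ⟨η, rfl⟩).2 hi
  obtain ⟨θ, e⟩ := polar u0
  rw [mem_closedBall_zero_iff] at hu
  obtain ⟨h4, h5⟩ := h3 θ η _ (norm_pos_iff.2 u0) hu
  rw [e, ← h5]
  exact (h.φ _ h4).1 ((h2 θ _ (by simpa [norm_smul] using hu)).2.resolve_right fun c => c hi)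

theorem Cor.isCompact (h : Cor σ I P P') (hP : IsCompact P) : IsCompact P' := by
  obtain ⟨ε, hε, h1⟩ := unif σ (O := fun _ => univ) (O' := fun _ => univ)
    (fun _ => isOpen_univ) (fun _ => subset_univ _) (fun _ => isOpen_univ) fun _ => subset_univ _
  have h2 : IsOpen (⋃ i, σ.A.a i '' univ ×ˢ ball 0 ε) := isOpen_iUnion fun i =>
    (σ.A.a i).isOpen_image_of_subset_source (isOpen_univ.prod isOpen_ball)
      fun z hz => ((h1 i).1 z.1 z.2 (mem_ball_zero_iff.1 hz.2).le).1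
  refine ((isCompact_iUnion fun i => (isCompact_univ.prod (isCompact_closedBall 0 ε)).image_of_continuousOn
    ((σ.B.a i).continuousOn.mono fun z hz => ((h1 i).2.1 z.1 z.2 (mem_closedBall_zero_iff.1 hz.2)).1)).union
    ((hP.diff h2).image_of_continuousOn (σ.φ.continuousOn.mono fun x hx => (src_iff σ).2
      fun i ⟨θ, e⟩ => hx.2 (mem_iUnion.2 ⟨i, (θ, 0), ⟨trivial, mem_ball_self hε⟩, e⟩)))).of_isClosed_subset
    ⟨h.compl.isOpen hP.isClosed.isOpen_compl⟩ fun y hy => (src_or σ.symm y).elim (fun c => ?_)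
    fun ⟨i, η, e⟩ => Or.inl (mem_iUnion.2 ⟨i, (η, 0), ⟨trivial, mem_closedBall_self hε.le⟩, e⟩)
  refine or_iff_not_imp_left.2 fun n => ⟨σ.φ.symm y, ⟨(h.symm.φ y c).1 hy, fun c' => n ?_⟩,
    σ.φ.right_inv c⟩
  obtain ⟨i, ⟨θ, v⟩, ⟨-, hv⟩, e⟩ := mem_iUnion.1 c'
  have v0 : v ≠ 0 := fun c' => (src_iff σ).1 (σ.φ.map_target c) i ⟨θ, c' ▸ e⟩
  obtain ⟨η, e'⟩ := polar v0
  have hv := (mem_ball_zero_iff.1 hv).le
  have := ((h1 i).2.2 θ η _ (norm_pos_iff.2 v0) hv).2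
  rw [← e', e, σ.φ.right_inv c] at this
  exact mem_iUnion.2 ⟨i, (η, ‖v‖ • θ), ⟨trivial, by simpa [norm_smul] using hv⟩, this.symm⟩

end cor

section model

variable {Θ V : Type} [TopologicalSpace Θ] [NormedAddCommGroup V]

/-- pushing a family of arcs off the zero section -/
theorem push [InnerProductSpace ℝ V] [FiniteDimensional ℝ V] {ζ : Θ → ℝ → V} {ξ : V} {δ : ℝ}
    (hδ : 0 < δ) (hc : Continuous fun z : Θ × V => ζ z.1 ‖z.2‖) (h1 : ∀ θ r, ‖ζ θ r‖ = 1)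
    (hξ : ‖ξ‖ = 1) (hn : ∀ θ r, 0 ≤ r → ζ θ r ≠ ξ) :
    ∃ f : Θ × V ≃ₜ Θ × V, (∀ z ∉ univ ×ˢ closedBall 0 δ, f z = z) ∧
      ∀ θ r, 0 ≤ r → ∃ r' > 0, f (θ, r • ζ θ r) = (θ, r' • ζ θ r') := by
  let R : Θ → ℝ → V ≃ₗᵢ[ℝ] V := fun θ r => (ℝ ∙ (ζ θ r - ξ))ᗮ.reflection
  have hR : ∀ θ r, R θ r (ζ θ r) = ξ := fun θ r => Submodule.reflection_sub (by rw [h1, hξ])
  have hR' : ∀ θ r v, R θ r (R θ r v) = v := fun θ r => Submodule.reflection_reflection _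
  let ρ : Θ × V → Θ × V := fun z => (z.1, R z.1 ‖z.2‖ z.2)
  have i : ∀ z, ρ (ρ z) = z := fun z => by simp [ρ, hR']
  have c : Continuous ρ := by
    simp only [ρ, R, Submodule.reflection_orthogonal_apply, Submodule.reflection_singleton_apply]
    have := hc.sub (continuous_const (y := ξ))
    refine continuous_fst.prodMk (((((this.inner continuous_snd).div (this.norm.pow 2)
      fun z => ?_).smul this).const_smul 2).sub continuous_snd).neg
    simpa [sub_eq_zero] using hn _ _ (norm_nonneg _)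
  obtain ⟨χ, c1, c2, c3, c4, c5⟩ := exists_bump (isCompact_singleton (x := (0 : V))) isOpen_ball
    (singleton_subset_iff.2 (mem_ball_self hδ))
  obtain ⟨d, hd, h⟩ := pert_diffeo (W := fun v => χ v • ξ) (c1.smul contDiff_const)
    (c2.smul_right (f' := fun _ => ξ))
  obtain ⟨g, hg, -⟩ := h (d / 2) (by rw [abs_of_pos (half_pos hd)]; exact half_lt_self hd)
  let ρ' : Θ × V ≃ₜ Θ × V := ⟨⟨ρ, ρ, i, i⟩, c, c⟩
  refine ⟨ρ'.trans (((Homeomorph.refl Θ).prodCongr g).trans ρ'), fun z hz => ?_, fun θ r hr => ?_⟩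
  · have : χ (ρ z).2 = 0 := image_eq_zero_of_notMem_tsupport fun c => hz ⟨trivial, by
      simpa [ρ] using (mem_ball_zero_iff.1 (c3 c)).le⟩
    show ρ ((ρ z).1, g (ρ z).2) = z
    rw [hg, this, zero_smul, smul_zero, add_zero]
    exact i z
  have h2 : 0 < r + d / 2 * χ (r • ξ) := by
    rcases hr.eq_or_lt with rfl | hr
    · simpa [c4.self_of_nhdsSet 0 rfl] using hd
    · have := (c5 (r • ξ)).1
      positivity
  refine ⟨_, h2, ?_⟩
  show ρ (θ, g (R θ ‖r • ζ θ r‖ (r • ζ θ r))) = _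
  rw [norm_smul, h1, mul_one, Real.norm_of_nonneg hr, map_smul, hR, hg, smul_smul, ← add_smul]
  simp only [ρ]
  rw [norm_smul, hξ, mul_one, Real.norm_of_nonneg h2.le, map_smul,
    ((congrArg _ (hR θ _).symm).trans (hR' θ _ _) : R θ _ ξ = _)]

/-- squeezing a compact convex set -/
theorem squeeze [NormedSpace ℝ V] [FiniteDimensional ℝ V] {K W T : Set V} (hK : IsCompact K)
    (hc : Convex ℝ K) (h0 : 0 ∈ K) (hW : IsOpen W) (h : K ⊆ W) (hT : T ∈ 𝓝 0) :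
    ∃ k : V ≃ₜ V, ∃ L ⊆ W, IsCompact L ∧ (∀ z ∉ L, k z = z) ∧ k 0 = 0 ∧ MapsTo k K T := by
  obtain ⟨χ, c1, c2, c3, c4, -⟩ := exists_bump hK hW h
  obtain ⟨d, hd, h⟩ := pert_diffeo (W := fun v => χ v • v) (c1.smul contDiff_id)
    (c2.smul_right (f' := fun v => v))
  obtain ⟨a, a1, a2, a3⟩ : ∃ a : ℝ, 0 ≤ a ∧ a < 1 ∧ |a - 1| < d :=
    ⟨max 0 (1 - d / 2), le_max_left _ _, max_lt one_pos (by linarith), by
      rw [abs_lt]
      constructor <;> rcases le_total 0 (1 - d / 2) with h | h <;> simp [h] <;> linarith⟩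
  obtain ⟨g, hg, -⟩ := h _ a3
  have key : ∀ n : ℕ, ∃ k : V ≃ₜ V, (∀ z ∉ tsupport χ, k z = z) ∧ ∀ z ∈ K, k z = a ^ n • z := by
    intro n
    induction n with
    | zero => exact ⟨.refl _, fun _ _ => rfl, by simp⟩
    | succ n ih =>
      obtain ⟨k, k1, k2⟩ := ih
      refine ⟨k.trans g, fun z hz => ?_, fun z hz => ?_⟩
      · simp [k1 z hz, hg, image_eq_zero_of_notMem_tsupport hz]
      · rw [Homeomorph.trans_apply, k2 z hz, hg, c4.self_of_nhdsSet _ (hc.smul_mem_of_zero_mem h0 hz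
          ⟨pow_nonneg a1 n, pow_le_one₀ a1 a2.le⟩)]
        module
  have : ∀ᶠ t in 𝓝 (0 : ℝ), ∀ z ∈ K, t • z ∈ T :=
    hK.eventually_forall_of_forall_eventually fun z _ =>
      continuous_smul.continuousAt.preimage_mem_nhds (by simpa using hT)
  obtain ⟨n, hn⟩ := ((tendsto_pow_atTop_nhds_zero_of_lt_one a1 a2).eventually this).exists
  obtain ⟨k, k1, k2⟩ := key n
  exact ⟨k, _, c3, c2, k1, by simp [k2 0 h0], fun z hz => k2 z hz ▸ hn z hz⟩

end model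

section main

variable {ι U V U' V' M N : Type} [Finite ι]
  [NormedAddCommGroup U] [InnerProductSpace ℝ U] [FiniteDimensional ℝ U]
  [NormedAddCommGroup V] [InnerProductSpace ℝ V] [FiniteDimensional ℝ V]
  [NormedAddCommGroup U'] [InnerProductSpace ℝ U'] [FiniteDimensional ℝ U']
  [NormedAddCommGroup V'] [InnerProductSpace ℝ V'] [FiniteDimensional ℝ V']
  [TopologicalSpace M] [TopologicalSpace N] [T2Space N]

/-- near the belt sphere the crossing sphere is a graph over the normal disc -/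
theorem loc {B : Tubes ι V U N} {S : Tubes ι U' V' N} {i : ι} {η₀ : sphere (0 : V) 1}
    (hx : ∀ x ∈ S.core i, x ∈ B.core i → x = B.a i (η₀, 0)) (hp : B.a i (η₀, 0) ∈ S.core i)
    (hc : Cross B S i i (B.a i (η₀, 0))) :
    ∃ O, IsOpen O ∧ B.core i ⊆ O ∧ ∃ ε > (0 : ℝ), ∃ η : U → sphere (0 : V) 1,
      ContinuousOn η (closedBall 0 ε) ∧ ∀ u, ‖u‖ ≤ ε → η u ≠ -η₀ ∧ B.a i (η u, u) ∈ S.core i ∧
        ∀ ζ, (ζ, u) ∈ (B.a i).source → B.a i (ζ, u) ∈ O → B.a i (ζ, u) ∈ S.core i → ζ = η u := by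
  obtain ⟨c, h0, h1⟩ := hc
  have hB := (B.a i).map_source (B.zero i η₀)
  have e := (B.a i).left_inv (B.zero i η₀)
  have h2 : ∀ᶠ y in 𝓝 (B.a i (η₀, 0)), ((B.a i).symm y).1 ≠ -η₀ :=
    (continuousAt_fst.comp ((B.a i).continuousAt_symm hB)).eventually_ne
      (by rw [comp_apply, e]; exact ne_neg_of_mem_unit_sphere ℝ η₀)
  obtain ⟨T, h3, h4, h5⟩ := eventually_nhds_iff.1 (h1.and (h2.and (Eventually.and
    (c.open_source.mem_nhds h0) (Eventually.and ((B.a i).open_target.mem_nhds hB)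
    ((S.a i).open_target.mem_nhds (S.core_sub i hp))))))
  have e' : c (B.a i (η₀, 0)) = (0, 0) := by
    rw [h1.self_of_nhds, e, (S.mem_core (S.core_sub i hp)).1 hp]
  obtain ⟨ε, hε, h6⟩ := nhds_basis_closedBall.mem_iff.1
    ((Continuous.prodMk_left (0 : V')).continuousAt.preimage_mem_nhds (x := (0 : U))
    ((c.isOpen_inter_preimage_symm h4).mem_nhds
      ⟨e' ▸ c.map_source h0, by rw [mem_preimage, ← e', c.left_inv h0]; exact h5⟩))
  refine ⟨(S.core i \ T)ᶜ, ((S.cpt i).diff h4).isClosed.isOpen_compl,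
    fun x h c => c.2 (hx x c.1 h ▸ h5), ε, hε, fun u => ((B.a i).symm (c.symm (u, 0))).1,
    continuous_fst.comp_continuousOn ((B.a i).continuousOn_symm.comp (c.continuousOn_symm.comp
      (Continuous.prodMk_left 0).continuousOn fun u hu => (h6 hu).1)
      fun u hu => (h3 _ (h6 hu).2).2.2.2.1), fun u hu => ?_⟩
  obtain ⟨k1, k2⟩ := h6 (mem_closedBall_zero_iff.2 hu)
  obtain ⟨k3, k4, -, k5, k6⟩ := h3 _ k2
  rw [c.right_inv k1, Prod.mk.injEq] at k3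
  refine ⟨k4, ?_, fun ζ z1 z2 z3 => ?_⟩
  · have := (B.a i).right_inv k5
    rw [← Prod.mk.eta (p := (B.a i).symm _), ← k3.1] at this
    exact this.symm ▸ (S.mem_core k6).2 k3.2.symm
  · obtain ⟨l1, -, l2, -, l3⟩ := h3 _ (not_not.1 fun c => z2 ⟨z3, c⟩)
    rw [(B.a i).left_inv z1, (S.mem_core l3).1 z3] at l1
    dsimp only at l1 ⊢
    rw [← l1, c.left_inv l2, (B.a i).left_inv z1]

/-- the set corresponding to two crossing spheres can be pushed into small neighbourhoods -/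
theorem shr [T2Space M] (σ : Surg ι U V M N) {S : Tubes ι U' V' N} {i : ι} {p : N} {C : Set M}
    (hx : ∀ j, ∀ x ∈ S.core i, x ∈ σ.B.core j → i = j ∧ x = p) (hS : p ∈ S.core i)
    (hB : p ∈ σ.B.core i) (hc : Cross σ.B S i i p) (hC : Cor σ {i} C (σ.B.core i ∪ S.core i)) :
    ∃ c ∈ C, ∀ W, IsOpen W → C ⊆ W → ∀ T ∈ 𝓝 c, ∃ h : M ≃ₜ M, (∀ x ∉ W, h x = x) ∧ h c = c ∧
      MapsTo h C T := by
  have cC : IsCompact C := hC.symm.isCompact ((σ.B.cpt i).union (S.cpt i))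
  have nB : ∀ x ∈ σ.φ.source, σ.φ x ∉ σ.B.core i := fun x h =>
    (src_iff σ.symm).1 (σ.φ.map_source h) i
  obtain ⟨s₀, hs⟩ := id hS
  obtain ⟨e, e1, e2⟩ : ∃ e : OpenPartialHomeomorph M ((ℝ ∙ (s₀ : U'))ᗮ × V'),
      (∀ x ∈ σ.φ.source, σ.φ x ∈ S.core i → x ∈ e.source ∧ (e x).2 = 0) ∧
      ∀ w, (w, 0) ∈ e.target ∧ e.symm (w, 0) ∈ C ∧ e.symm (w, 0) ∈ σ.φ.source := by
    let st := stereographic (norm_eq_of_mem_sphere s₀)
    refine ⟨σ.φ.trans ((S.a i).symm.trans (st.prod (.refl V'))), fun x h ⟨s, h'⟩ => ?_, fun w => ?_⟩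
    · have h1 : (S.a i).symm (σ.φ x) = (s, 0) := h' ▸ (S.a i).left_inv (S.zero i s)
      refine ⟨⟨h, S.core_sub i ⟨s, h'⟩, ?_⟩, congrArg Prod.snd h1⟩
      show (S.a i).symm (σ.φ x) ∈ st.source ×ˢ univ
      rw [h1]
      exact ⟨fun c => nB x h (by rw [← h', show s = s₀ from c]; exact hs ▸ hB), trivial⟩
    · have h1 : S.a i (st.symm w, 0) ∈ σ.φ.target := (src_iff σ.symm).2 fun j c =>
        st.map_target (mem_univ w) (congrArg Prod.fst ((S.a i).injOn (S.zero i _) (S.zero i _)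
          ((hx j _ ⟨_, rfl⟩ c).2.trans hs.symm)))
      exact ⟨⟨⟨⟨trivial, trivial⟩, S.zero i _⟩, h1⟩, (hC.symm.φ _ h1).1 (Or.inr ⟨_, rfl⟩),
        σ.φ.map_target h1⟩
  refine ⟨e.symm 0, (e2 0).2.1, fun W hW hCW T hT => ?_⟩
  obtain ⟨η₀, rfl⟩ := hB
  obtain ⟨O, o1, o2, ε, hε, η, hη, h1⟩ := loc (fun x h h' => (hx i x h h').2) hS hc
  obtain ⟨δ', hδ', h2⟩ := unif σ (O := fun j => (W \ {e.symm 0}) ∪ {_x | j ≠ i})
    (O' := fun j => O ∪ {_x | j ≠ i}) (fun _ => (hW.sdiff isClosed_singleton).union isOpen_const)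
    (fun j x h => or_iff_not_imp_right.2 fun c => ⟨hCW ((hC.A j x h).2 (not_not.1 c)),
      fun c' => (src_iff σ).1 (e2 0).2.2 j (c' ▸ h)⟩) (fun _ => o1.union isOpen_const)
    fun j x h => or_iff_not_imp_right.2 fun c => o2 (not_not.1 c ▸ h)
  obtain ⟨a1, a2, a3⟩ := h2 i
  have hn : ∀ (θ : sphere (0 : U) 1) (r : ℝ), 0 ≤ r → ‖min r ε • (θ : U)‖ ≤ ε := fun θ r hr => by
    simp [norm_smul, abs_of_nonneg (le_min hr hε.le)]
  obtain ⟨f, f1, f2⟩ := push (ζ := fun (θ : sphere (0 : U) 1) r => (η (min r ε • θ) : V))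
    (ξ := (-η₀ : sphere (0 : V) 1)) (lt_min hε hδ') (continuous_subtype_val.comp
      (hη.comp_continuous (by fun_prop) fun z => mem_closedBall_zero_iff.2 (hn _ _ (norm_nonneg _))))
    (fun _ _ => norm_eq_of_mem_sphere _) (norm_eq_of_mem_sphere _)
    fun θ r hr c => (h1 _ (hn θ r hr)).1 (Subtype.ext c)
  set D : Set (sphere (0 : U) 1 × V) := univ ×ˢ closedBall 0 (min ε δ')
  have hD : ∀ z ∈ D, ‖z.2‖ ≤ ε ∧ ‖z.2‖ ≤ δ' := fun z hz => le_min_iff.1 (mem_closedBall_zero_iff.1 hz.2)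
  obtain ⟨g, g1, -, g2⟩ := transport (σ.A.a i).symm f (isCompact_univ.prod (isCompact_closedBall _ _))
    (fun z hz => (a1 z.1 z.2 (hD z hz).2).1) f1
  have g3 : ∀ x ∉ W \ {e.symm 0}, g x = x := fun x h => g2 x fun ⟨z, hz, c⟩ =>
    h (c ▸ (a1 z.1 z.2 (hD z hz).2).2.resolve_right fun c => c rfl)
  have g4 : ∀ x ∈ C, g x ∈ σ.φ.source ∧ σ.φ (g x) ∈ S.core i := fun x h => by
    by_cases c : x ∈ σ.A.a i '' D
    swap
    · have : x ∈ σ.φ.source := (src_iff σ).2 fun j h' => c <| by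
        obtain rfl : j = i := (hC.A j x h').1 h
        obtain ⟨θ, rfl⟩ := h'
        exact ⟨(θ, 0), ⟨trivial, mem_closedBall_self (lt_min hε hδ').le⟩, rfl⟩
      rw [g2 x c]
      exact ⟨this, ((hC.φ x this).1 h).resolve_left (nB x this)⟩
    obtain ⟨⟨θ, v⟩, hz, rfl⟩ := c
    obtain ⟨v1, v2⟩ := hD _ hz
    have hv : v = ‖v‖ • (η (min ‖v‖ ε • θ) : V) := by
      rcases eq_or_ne v 0 with rfl | v0
      · simp
      obtain ⟨ζ, e'⟩ := polar v0
      obtain ⟨b1, b2⟩ := a3 θ ζ _ (norm_pos_iff.2 v0) v2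
      rw [← e'] at b1 b2
      obtain ⟨b3, b4⟩ := a2 ζ (‖v‖ • θ) (by simpa [norm_smul] using v2)
      rw [min_eq_left v1, ← (h1 _ (by simpa [norm_smul] using v1)).2.2 ζ b3
        (b4.resolve_right fun c => c rfl) (b2 ▸ ((hC.φ _ b1).1 h).resolve_left (nB _ b1))]
      exact e'
    obtain ⟨r, r0, hr⟩ := f2 θ _ (norm_nonneg v)
    rw [← hv] at hr
    obtain ⟨r1, r2⟩ := hD _ (hr ▸ (mem_of_id_off f.injective Subset.rfl f1).2 hz)
    simp only [norm_smul, norm_eq_of_mem_sphere, mul_one, Real.norm_of_nonneg r0.le] at r1 r2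
    have := (a1 θ v v2).1
    rw [g1 _ ((σ.A.a i).map_source this), (σ.A.a i).left_inv this, hr, min_eq_left r1]
    obtain ⟨b1, b2⟩ := a3 θ (η (r • θ)) r r0 r2
    exact ⟨b1, b2 ▸ (h1 _ (by simpa [norm_smul, abs_of_pos r0] using r1)).2.1⟩
  obtain ⟨R, hR0, hR⟩ := (((cC.image g.continuous).image_of_continuousOn (e.continuousOn.mono (by
    rintro _ ⟨x, h, rfl⟩
    exact (e1 _ (g4 x h).1 (g4 x h).2).1))).image continuous_fst).isBounded.subset_closedBall_lt 0 0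
  obtain ⟨k, L, k1, k2, k3, k4, k5⟩ := squeeze (K := closedBall 0 R ×ˢ {0})
    ((isCompact_closedBall _ _).prod isCompact_singleton)
    ((convex_closedBall _ _).prod (convex_singleton _)) ⟨mem_closedBall_self hR0.le, rfl⟩
    (e.isOpen_inter_preimage_symm hW) (by
      rintro ⟨w, _⟩ ⟨-, rfl⟩
      exact ⟨(e2 w).1, hCW (e2 w).2.1⟩) ((e.continuousAt_symm (e2 0).1).preimage_mem_nhds hT)
  obtain ⟨h, j1, -, j2⟩ := transport e k k2 (fun z hz => (k1 hz).1) k3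
  refine ⟨g.trans h, fun x c => ?_, ?_, fun x c => ?_⟩
  · rw [Homeomorph.trans_apply, g3 x fun c' => c c'.1, j2 x fun ⟨z, hz, c'⟩ => c (c' ▸ (k1 hz).2)]
  · have : 0 ∈ e.target := (e2 0).1
    rw [Homeomorph.trans_apply, g3 _ fun c => c.2 rfl, j1 _ (e.map_target this), e.right_inv this, k4]
  · obtain ⟨b1, b2⟩ := e1 _ (g4 x c).1 (g4 x c).2
    rw [Homeomorph.trans_apply, j1 _ b1]
    exact k5 ⟨hR ⟨_, ⟨_, ⟨x, c, rfl⟩, rfl⟩, rfl⟩, b2⟩

/-- the collapse of the crossing pairs -/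
theorem quot (hS : ShrinkStmt) [TopologicalSpace.MetrizableSpace M] [LocallyCompactSpace M]
    (σ : Surg ι U V M N) (S : Tubes ι U' V' N) {O : Set N} {p : ι → N} (hO : IsOpen O)
    (hB : σ.B.cores ⊆ O) (hSO : S.cores ⊆ O)
    (hx : ∀ i j, ∀ x ∈ S.core i, x ∈ σ.B.core j → i = j ∧ x = p i) (pS : ∀ i, p i ∈ S.core i)
    (pB : ∀ i, p i ∈ σ.B.core i) (hc : ∀ i, Cross σ.B S i i (p i)) :
    ∃ q : N → M, IsQuotientMap q ∧
      (∀ x y, q x = q y ↔ x = y ∨ ∃ i, x ∈ σ.B.core i ∪ S.core i ∧ y ∈ σ.B.core i ∪ S.core i) ∧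
      ∃ K, IsCompact K ∧ K ⊆ O ∧ (∀ i, σ.B.core i ∪ S.core i ⊆ K) ∧ ∀ x ∉ K, q x = σ.φ.symm x := by
  classical
  choose C hC using fun i => exists_cor' (σ := σ) (I := {i}) (P' := σ.B.core i ∪ S.core i)
    fun j y hy => ⟨fun c => c.elim (core_eq _ hy) fun c => (hx i j y c hy).1.symm,
      fun c => Or.inl ((show j = i from c) ▸ hy)⟩
  obtain ⟨O', hO'⟩ := exists_cor' (σ := σ) (I := univ) (P' := O)
    fun j y hy => iff_of_true (hB (mem_iUnion.2 ⟨j, hy⟩)) trivial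
  have cC : ∀ i, IsCompact (C i) := fun i => (hC i).symm.isCompact ((σ.B.cpt i).union (S.cpt i))
  have dC : Pairwise (Disjoint on C) := fun i j ij => subset_compl_iff_disjoint_right.1
    ((hC i).mono (hC j).compl (singleton_subset_iff.2 ij) fun y hy hy' => ij (hy.elim
      (fun a => hy'.elim (core_eq _ a) fun b => (hx j i y b a).1.symm)
      fun a => hy'.elim (fun b => (hx i j y a b).1) (core_eq _ a)))
  obtain ⟨W, w1, w2⟩ := Pairwise.exists_mem_filter_of_disjoint (l := fun i => 𝓝ˢ (C i))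
    fun i j ij => separatedNhds_iff_disjoint.1 (.of_isCompact_isCompact (cC i) (cC j) (dC ij))
  let Y : ι → Set M := fun i => interior (W i) ∩ O'
  have oY : ∀ i, IsOpen (Y i) := fun i => isOpen_interior.inter (hO'.symm.isOpen hO)
  have dY : Pairwise (Disjoint on Y) := w2.mono fun i j h =>
    h.mono (inter_subset_left.trans interior_subset) (inter_subset_left.trans interior_subset)
  have CY : ∀ i, C i ⊆ Y i := fun i => subset_inter (subset_interior_iff_mem_nhdsSet.2 (w1 i))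
    ((hC i).mono hO' (subset_univ _) (union_subset ((subset_iUnion _ i).trans hB)
      ((subset_iUnion _ i).trans hSO)))
  choose c c1 c2 using fun i => shr σ (hx i) (pS i) (pB i) (hc i) (hC i)
  choose f f1 f2 f3 f4 f5 using fun i => hS M (C i) (Y i) (c i) (cC i) (c1 i) (oY i) (CY i) (c2 i)
  choose K k1 k2 k3 using f3
  obtain ⟨F, F1, F2, F3⟩ := glue oY dY k2 k1 f1 k3
  have F4 : ∀ x, (∀ i, x ∉ Y i) → F x = x := fun x h => F3 x fun c =>
    let ⟨i, hi⟩ := mem_iUnion.1 c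
    h i (k1 i hi)
  have F5 : ∀ i x, F x ∈ Y i ↔ x ∈ Y i := fun i x => ⟨fun h => by
    by_cases c : ∃ j, x ∈ Y j
    · obtain ⟨j, hj⟩ := c
      obtain rfl : i = j := by_contra fun n => disjoint_left.1 (dY n) h (F2 j x hj ▸ f4 j hj)
      exact hj
    · exact F4 x (not_exists.1 c) ▸ h, fun h => F2 i x h ▸ f4 i h⟩
  have F6 : ∀ x y, F x = F y ↔ x = y ∨ ∃ i, x ∈ C i ∧ y ∈ C i := fun x y => by
    refine ⟨fun h => ?_, fun h => h.elim (congrArg F) fun ⟨i, a, b⟩ => by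
      rw [F2 i x (CY i a), F2 i y (CY i b), f5]; exact Or.inr ⟨a, b⟩⟩
    by_cases c : ∃ j, x ∈ Y j
    · obtain ⟨j, hj⟩ := c
      have := (F5 j y).1 (h ▸ (F5 j x).2 hj)
      rw [F2 j x hj, F2 j y this, f5] at h
      exact h.imp_right fun h => ⟨j, h⟩
    · rw [F4 x (not_exists.1 c)] at h
      exact Or.inl (h.trans (F4 y fun j hj => c ⟨j, h ▸ (F5 j y).2 hj⟩))
  have F7 : IsQuotientMap F := (closedMap_of_id_off F1 (isCompact_iUnion k2) F3).isQuotientMap F1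
    fun y => by
      by_cases c : ∃ j, y ∈ Y j
      · obtain ⟨j, hj⟩ := c
        obtain ⟨x, rfl⟩ := f2 j y
        exact ⟨x, F2 j x (by_contra fun n => n (k3 j x (fun c => n (k1 j c)) ▸ hj))⟩
      · exact ⟨y, F4 y (not_exists.1 c)⟩
  let r : N → M := fun y => if h : ∃ i, y ∈ σ.B.core i then c h.choose else σ.φ.symm y
  have r1 : ∀ i, ∀ y ∈ σ.B.core i, r y = c i := fun i y hy => by
    have h : ∃ i, y ∈ σ.B.core i := ⟨i, hy⟩
    simp only [r, dif_pos h, core_eq _ h.choose_spec hy]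
  have r2 : ∀ y ∈ σ.φ.target, r y = σ.φ.symm y := fun y hy =>
    dif_neg (not_exists.2 ((src_iff σ.symm).1 hy))
  have r3 : ∀ x ∈ σ.φ.source, r (σ.φ x) = x := fun x h => by
    rw [r2 _ (σ.φ.map_source h), σ.φ.left_inv h]
  have r4 : ∀ i y, r y ∈ C i ↔ y ∈ σ.B.core i ∪ S.core i := fun i y =>
    (src_or σ.symm y).elim (fun h => r2 y h ▸ ((hC i).symm.φ y h).symm) fun ⟨j, h⟩ => by
      rw [r1 j y h, (hC i).B j y h]
      exact ⟨fun a => by_contra fun n => disjoint_left.1 (dC n) (c1 j) a,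
        fun a => (show j = i from a) ▸ c1 j⟩
  have F8 : ∀ i, ∀ x ∈ σ.A.core i, F x = F (c i) := fun i x h =>
    (F6 _ _).2 (Or.inr ⟨i, ((hC i).A i x h).2 rfl, c1 i⟩)
  obtain ⟨K', hK⟩ := exists_cor (σ := σ) (I := univ) (P := ⋃ i, K i ∪ C i) fun i x h =>
    iff_of_true (mem_iUnion.2 ⟨i, Or.inr (((hC i).A i x h).2 rfl)⟩) trivial
  refine ⟨F ∘ r, ⟨.of_isOpen_preimage_iff_isOpen fun s => ?_, fun y => ?_⟩, fun x y => ?_, K',
    hK.isCompact (isCompact_iUnion fun i => (k2 i).union (cC i)),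
    hK.symm.mono hO'.symm Subset.rfl (iUnion_subset fun i =>
      (union_subset (k1 i) (CY i)).trans inter_subset_right),
    fun i => (hC i).symm.mono hK.symm (subset_univ _)
      (subset_iUnion_of_subset i subset_union_right), fun y hy => ?_⟩
  · have : Cor σ {i | F (c i) ∈ s} (F ⁻¹' s) (F ∘ r ⁻¹' s) :=
      ⟨fun x h => by simp [r3 x h], fun i x h => by simp [F8 i x h], fun i y h => by simp [r1 i y h]⟩
    exact ⟨fun h => F7.isOpen_preimage.1 (this.symm.isOpen h),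
      fun h => this.isOpen (h.preimage F1)⟩
  · obtain ⟨x, rfl⟩ := F7.surjective y
    exact (src_or σ x).elim (fun h => ⟨σ.φ x, congrArg F (r3 x h)⟩) fun ⟨i, h⟩ =>
      ⟨p i, (congrArg F (r1 i _ (pB i))).trans (F8 i x h).symm⟩
  · simp only [comp_apply, F6, r4]
    refine ⟨fun h => h.elim (fun h => ?_) Or.inr, Or.imp_left (congrArg r)⟩
    rcases src_or σ.symm x with a | ⟨i, a⟩
    · rcases src_or σ.symm y with b | ⟨i, b⟩
      · exact Or.inl (σ.φ.symm.injOn a b (by rwa [r2 x a, r2 y b] at h))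
      · exact Or.inr ⟨i, (r4 i x).1 (h ▸ (r4 i y).2 (Or.inl b)), Or.inl b⟩
    · exact Or.inr ⟨i, Or.inl a, (r4 i y).1 (h ▸ (r4 i x).2 (Or.inl a))⟩
  · have a : y ∈ σ.φ.target := (src_iff σ.symm).2 fun i h => hy ((hK.B i y h).2 trivial)
    rw [comp_apply, r2 y a]
    exact F3 _ fun c => hy ((hK.symm.φ y a).2 (iUnion_mono (fun _ => subset_union_left) c))

end main

theorem homeo_of_quot {X Y Z : Type} [TopologicalSpace X] [TopologicalSpace Y] [TopologicalSpace Z]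
    {q : X → Y} {q' : X → Z} (h : IsQuotientMap q) (h' : IsQuotientMap q')
    (e : ∀ x y, q x = q y ↔ q' x = q' y) : ∃ g : Y ≃ₜ Z, ∀ x, g (q x) = q' x := by
  have a : ∀ x, q' (surjInv h.2 (q x)) = q' x := fun x => (e _ _).1 (surjInv_eq _ _)
  have b : ∀ x, q (surjInv h'.2 (q' x)) = q x := fun x => (e _ _).2 (surjInv_eq _ _)
  exact ⟨⟨⟨q' ∘ surjInv h.2, q ∘ surjInv h'.2, fun y => (b _).trans (surjInv_eq _ _),
    fun y => (a _).trans (surjInv_eq _ _)⟩,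
    h.continuous_iff.2 (h'.continuous.congr fun x => (a x).symm),
    h'.continuous_iff.2 (h.continuous.congr fun x => (b x).symm)⟩, a⟩

end Cancel

open Cancel in
theorem cancel (hS : ShrinkStmt) : CancelStmt := by
  intro ι U V U' V' Mm M0 Mp _ _ _ _ _ _ _ _ _ _ _ _ _ _ _ _ _ _ _ _ _ σ₁ σ₂ O p hO h1 h2 h3 h4 h5
  have hx : ∀ i j, ∀ x ∈ σ₂.A.core i, x ∈ σ₁.B.core j → i = j ∧ x = p i := fun i j x a b =>
    have : x = p i := (h3 i).subset ⟨a, mem_iUnion.2 ⟨j, b⟩⟩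
    ⟨core_eq _ (h4 i) (this ▸ b), this⟩
  have pS : ∀ i, p i ∈ σ₂.A.core i := fun i => ((h3 i).symm.subset rfl).1
  obtain ⟨q, q1, q2, K, k1, k2, k3, k4⟩ := quot hS σ₁ σ₂.A hO h1 h2 hx pS h4 h5
  obtain ⟨q', q1', q2', K', k1', k2', -, k4'⟩ := quot hS σ₂.symm σ₁.B hO h2 h1
    (fun i j x a b => by obtain ⟨rfl, e⟩ := hx j i x b a; exact ⟨rfl, e⟩) h4 pS fun i =>
      let ⟨c, c1, c2⟩ := h5 i
      ⟨c.transHomeomorph (.prodComm _ _), c1, c2.mono fun y hy => congrArg Prod.swap hy⟩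
  obtain ⟨g, hg⟩ := homeo_of_quot q1 q1' fun x y => by
    simp only [q2, q2', union_comm (σ₁.B.core _)]
    rfl
  refine ⟨g, K ∪ K', k1.union k1', union_subset k2 k2',
    iUnion_subset fun i x h => Or.inl (k3 i (Or.inl h)),
    iUnion_subset fun i x h => Or.inl (k3 i (Or.inr h)), fun x a b => ?_⟩
  have := hg (σ₁.φ x)
  rwa [k4 _ fun c => b (Or.inl c), k4' _ fun c => b (Or.inr c), σ₁.φ.left_inv a] at this

end Pool.Agent.MP_e1dc65_gt.T1
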