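import Pool.Agent.MP_e1dc65_gt.t1.Base
import Mathlib.Analysis.Calculus.DSlope
import Mathlib.LinearAlgebra.Basis.Fin

/-! PROJECT HC, part T1: the local analysis along arcs in the plane. -/

open scoped ContDiff Manifold NNReal
open Set Metric Filter Topology Function Module

noncomputable section

namespace Pool.Agent.MP_e1dc65_gt.T1

/-- the area form -/
def loc2w (u v : ℝ × ℝ) : ℝ := u.1 * v.2 - u.2 * v.1

/-- the quarter turn -/
def loc2J (u : ℝ × ℝ) : ℝ × ℝ := (-u.2, u.1)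

theorem loc2pos {u : ℝ × ℝ} (h : u ≠ 0) : 0 < loc2w u (loc2J u) := by
  refine lt_of_not_ge fun c => h (Prod.ext ?_ ?_) <;> simp only [loc2w, loc2J] at c
  · exact pow_eq_zero_iff two_ne_zero |>.1 (by nlinarith [sq_nonneg u.1, sq_nonneg u.2])
  · exact pow_eq_zero_iff two_ne_zero |>.1 (by nlinarith [sq_nonneg u.1, sq_nonneg u.2])

theorem loc2det (D : ℝ × ℝ →L[ℝ] ℝ × ℝ) : D.det = loc2w (D (1, 0)) (D (0, 1)) := by
  rw [ContinuousLinearMap.det, ← LinearMap.det_toMatrix (Basis.finTwoProd ℝ), Matrix.det_fin_two]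
  simp [LinearMap.toMatrix_apply, loc2w]
  ring

theorem loc2der {Y H : ℝ → ℝ × ℝ} {a : ℝ} (e : ∀ t, Y t = (t - a) • H t) (h : ContinuousAt H a) :
    HasDerivAt Y (H a) a := by
  rw [hasDerivAt_iff_tendsto_slope]
  refine (h.tendsto.mono_left nhdsWithin_le_nhds).congr'
    (eventually_nhdsWithin_of_forall fun t ht => ?_)
  simp [slope, e, smul_smul, inv_mul_cancel₀ (sub_ne_zero.2 ht)]

theorem loc2Q {Y : ℝ → ℝ × ℝ} {a b : ℝ} (hab : a < b) (ha : Y a = 0) (hb : Y b = 0) :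
    ∃ Q : ℝ → ℝ × ℝ, (∀ t, Y t = ((t - a) * (b - t)) • Q t) ∧
      ∀ t, DifferentiableAt ℝ Y t → ContinuousAt Q t := by
  refine ⟨fun t => -dslope (dslope Y a) b t, fun t => ?_, fun t h => ContinuousAt.neg ?_⟩
  · have h1 := sub_smul_dslope Y a t
    have h2 := sub_smul_dslope (dslope Y a) b t
    rw [dslope_of_ne _ hab.ne', slope, ha, hb, vsub_self, smul_zero, sub_zero] at h2
    rw [ha, sub_zero, ← h2] at h1
    rw [← h1]
    module
  · rcases eq_or_ne t b with rfl | c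
    · exact continuousAt_dslope_same.2 ((differentiableAt_dslope_of_ne hab.ne').2 h)
    · rw [continuousAt_dslope_of_ne c]
      rcases eq_or_ne t a with rfl | c
      exacts [continuousAt_dslope_same.2 h, (continuousAt_dslope_of_ne c).2 h.continuousAt]

theorem loc2V {y : ℝ × ℝ → ℝ × ℝ} {D : ℝ × ℝ →L[ℝ] ℝ × ℝ} {t : ℝ}
    (h : HasStrictFDerivAt y D (t, 0)) : ∃ V : ℝ × ℝ → ℝ × ℝ,
      Tendsto V (𝓝 (t, 0)) (𝓝 (D (0, 1))) ∧ ∀ z, z.2 ≠ 0 → y z = y (z.1, 0) + z.2 • V z := by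
  have c : Tendsto (fun z : ℝ × ℝ => (z, (z.1, (0 : ℝ)))) (𝓝 (t, 0)) (𝓝 ((t, 0), (t, 0))) :=
    Continuous.tendsto' (by fun_prop) _ _ rfl
  have h1 := (h.isLittleO.comp_tendsto c).trans_isBigO (k := fun z : ℝ × ℝ => z.2)
    (Asymptotics.isBigO_of_le _ fun z => by simp [Prod.norm_def])
  refine ⟨_, by simpa using h1.tendsto_inv_smul_nhds_zero.add_const (D (0, 1)), fun z hz => ?_⟩
  have : D (z - (z.1, 0)) = z.2 • D (0, 1) := by
    rw [← D.map_smul]
    congr 1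
    ext <;> simp
  simp [smul_add, smul_smul, mul_inv_cancel₀ hz, ← this]

/-- the local property asked for -/
def Loc2G (y : ℝ × ℝ → ℝ × ℝ) (F : ℝ × ℝ → (ℝ × ℝ) × (ℝ × ℝ) × (ℝ × ℝ)) (S : Set ℝ)
    (z : ℝ × ℝ) : Prop :=
  ContinuousAt F z ∧ ∀ κ > (0 : ℝ), ∀ r ∈ Icc (0 : ℝ) 1, ∀ r' ∈ Icc (0 : ℝ) 1, (r = 0 ∨ r' = 1) →
    y z = r • ((F z).1 + κ • (F z).2.1) + r' • (F z).2.2 → (z.1 ∈ S ∧ z.2 = 0) ∧ r < 1

theorem loc2one {y : ℝ × ℝ → ℝ × ℝ} {a b : ℝ} (hab : a < b)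
    (hy : ∀ t ∈ Icc a b, ContDiffAt ℝ 2 y (t, 0)) (ha : y (a, 0) = 0) (hb : y (b, 0) = 0)
    (hi : ∀ t ∈ Ioo a b, y (t, 0) ≠ 0)
    (hd : (fderiv ℝ y (a, 0)).det * (fderiv ℝ y (b, 0)).det < 0) :
    ∃ F, ∀ t ∈ Icc a b, ((F (t, 0)).1 = y (t, 0) ∧ (F (t, 0)).2.2 = 0) ∧
      ∀ᶠ z in 𝓝 (t, 0), Loc2G y F (Icc a b) z := by
  obtain ⟨Q, hQ, cQ⟩ := loc2Q (Y := fun t => y (t, 0)) hab ha hb
  have dY : ∀ t, ContDiffAt ℝ 2 y (t, 0) →
      HasDerivAt (fun t => y (t, 0)) (fderiv ℝ y (t, 0) (1, 0)) t := fun t h =>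
    (h.differentiableAt two_ne_zero).hasFDerivAt.comp_hasDerivAt t
      ((hasDerivAt_id t).prodMk (hasDerivAt_const t 0))
  replace cQ : ∀ t, ContDiffAt ℝ 2 y (t, 0) → ContinuousAt Q t := fun t h =>
    cQ t (dY t h).differentiableAt
  have ma := left_mem_Icc.2 hab.le
  have mb := right_mem_Icc.2 hab.le
  have da := (dY a (hy a ma)).unique (loc2der (H := fun t => (b - t) • Q t)
    (fun t => by rw [hQ t, mul_smul]) (have := cQ a (hy a ma); by fun_prop))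
  have db := (dY b (hy b mb)).unique (loc2der (H := fun t => (a - t) • Q t)
    (fun t => by rw [hQ t]; module) (have := cQ b (hy b mb); by fun_prop))
  obtain ⟨W, hW⟩ : ∃ W : ℝ → ℝ, ∀ t, W t = loc2w (Q t) (fderiv ℝ y (t, 0) (0, 1)) := ⟨_, fun _ => rfl⟩
  have hW0 : 0 < W a * W b := by
    rw [loc2det, loc2det, da, db] at hd
    refine pos_of_mul_pos_left (b := (b - a) ^ 2) ?_ (sq_nonneg _)
    simp only [hW, loc2w, Prod.smul_fst, Prod.smul_snd, smul_eq_mul] at hd ⊢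
    linarith
  have hQ0 : ∀ t ∈ Icc a b, Q t ≠ 0 := fun t ht c => by
    rcases eq_endpoints_or_mem_Ioo_of_mem_Icc ht with rfl | rfl | ht
    · simp [hW t, c, loc2w] at hW0
    · simp [hW t, c, loc2w] at hW0
    · exact hi t ht (by rw [hQ t, c, smul_zero])
  obtain ⟨L, hL⟩ : ∃ L : ℝ, ∀ t, t = a ∨ t = b →
      0 < L * W t ∧ L * (W t - L * loc2w (Q t) (loc2J (Q t))) < 0 := by
    have na := loc2pos (hQ0 a ma)
    have nb := loc2pos (hQ0 b mb)
    obtain ⟨u, hu⟩ : ∃ u, W a = u * loc2w (Q a) (loc2J (Q a)) := ⟨_, (div_mul_cancel₀ _ na.ne').symm⟩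
    obtain ⟨v, hv⟩ : ∃ v, W b = v * loc2w (Q b) (loc2J (Q b)) := ⟨_, (div_mul_cancel₀ _ nb.ne').symm⟩
    have uv : 0 < u * v := pos_of_mul_pos_left (b := _ * _) (by rw [hu, hv] at hW0; linarith)
      (mul_pos na nb).le
    refine ⟨2 * (u + v), ?_⟩
    rintro t (rfl | rfl)
    · rw [hu]
      constructor <;> nlinarith [mul_pos uv na, mul_nonneg (sq_nonneg u) na.le,
        mul_nonneg (sq_nonneg v) na.le]
    · rw [hv]
      constructor <;> nlinarith [mul_pos uv nb, mul_nonneg (sq_nonneg u) nb.le,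
        mul_nonneg (sq_nonneg v) nb.le]
  have L0 : L ≠ 0 := fun c => by simpa [c] using (hL a (Or.inl rfl)).1
  let n : ℝ × ℝ → ℝ × ℝ := fun z => y z - y (z.1, 0) - (z.2 * L) • loc2J (Q z.1)
  have n0 : ∀ t, n (t, 0) = 0 := fun t => by simp [n]
  have cn : ∀ z, ContDiffAt ℝ 2 y z → ContDiffAt ℝ 2 y (z.1, 0) → ContinuousAt n z :=
    fun z h1 h2 => by
      have h3 : ContinuousAt (fun z : ℝ × ℝ => y (z.1, 0)) z :=
        (dY _ h2).continuousAt.comp continuousAt_fst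
      have h4 : ContinuousAt (fun z : ℝ × ℝ => Q z.1) z := (cQ _ h2).comp continuousAt_fst
      have := h1.continuousAt
      simp only [n, loc2J]
      fun_prop
  refine ⟨fun z => (max ((z.1 - a) * (b - z.1)) 0 • Q z.1, Q z.1, n z), fun t ht =>
    ⟨⟨?_, n0 t⟩, ?_⟩⟩
  · simp only [hQ t, max_eq_left (mul_nonneg (sub_nonneg.2 ht.1) (sub_nonneg.2 ht.2))]
  have c1 : ContinuousAt (fun z : ℝ × ℝ => Q z.1) (t, 0) := (cQ t (hy t ht)).comp continuousAt_fst
  have e1 := (hy t ht).eventually (by simp)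
  have e2 := (Continuous.tendsto' (f := fun z : ℝ × ℝ => (z.1, (0 : ℝ))) (by fun_prop) (t, 0) _
    rfl).eventually e1
  have e3 := c1.eventually_ne (hQ0 t ht)
  have e4 : ∀ᶠ z in 𝓝 (t, (0 : ℝ)), z.2 ≠ 0 → ∀ r' ∈ Icc (0 : ℝ) 1, y z ≠ r' • n z := by
    by_cases c : t = a ∨ t = b
    · obtain ⟨V, h1, h2⟩ := loc2V ((hy t ht).hasStrictFDerivAt two_ne_zero)
      have k1 : Tendsto (fun z => loc2w (Q z.1) (V z)) (𝓝 (t, 0)) (𝓝 (W t)) := by
        rw [hW]
        exact (c1.fst.tendsto.mul h1.snd_nhds).sub (c1.snd.tendsto.mul h1.fst_nhds)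
      have k2 : ContinuousAt (fun z : ℝ × ℝ => loc2w (Q z.1) (loc2J (Q z.1))) (t, 0) := by
        simp only [loc2w, loc2J]
        fun_prop
      filter_upwards [(k1.const_mul L).eventually_const_lt (hL t c).1,
        ((k1.sub (k2.tendsto.const_mul L)).const_mul L).eventually_lt_const (hL t c).2]
        with z h3 h4 hz r' hr e
      have h5 : z.2 * loc2w (Q z.1) (V z) =
          z.2 * (r' * (loc2w (Q z.1) (V z) - L * loc2w (Q z.1) (loc2J (Q z.1)))) := by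
        have := congrArg (loc2w (Q z.1)) e
        simp only [n] at this
        rw [h2 z hz, hQ z.1] at this
        simp only [loc2w, Prod.smul_fst, Prod.smul_snd, smul_eq_mul, Prod.fst_add, Prod.snd_add,
          Prod.fst_sub, Prod.snd_sub] at this ⊢
        linarith
      have := mul_nonneg hr.1 (neg_pos.2 h4).le
      rw [mul_left_cancel₀ hz h5] at h3
      linarith
    · have : ‖n (t, 0)‖ < ‖y (t, 0)‖ := by
        rw [n0, norm_zero, norm_pos_iff]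
        exact hi t ((eq_endpoints_or_mem_Ioo_of_mem_Icc ht).resolve_left (fun h => c (Or.inl h))
          |>.resolve_left fun h => c (Or.inr h))
      filter_upwards [(cn _ (hy t ht) (hy t ht)).norm.eventually_lt (hy t ht).continuousAt.norm this]
        with z h1 _ r' hr e
      rw [e, norm_smul, Real.norm_of_nonneg hr.1] at h1
      nlinarith [norm_nonneg (n z), hr.2]
  filter_upwards [e1, e2, e3, e4] with z h1 h2 h3 h4
  have h5 : ContinuousAt (fun z : ℝ × ℝ => Q z.1) z := (cQ _ h2).comp continuousAt_fst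
  refine ⟨(have := cn z h1 h2; by fun_prop), fun κ hκ r hr r' hr' h e => ?_⟩
  have hz : z.2 = 0 := by_contra fun hz => by
    rcases h with rfl | rfl
    · exact h4 hz r' hr' (by simpa using e)
    · have := congrArg (loc2w (Q z.1)) e
      refine mul_ne_zero (mul_ne_zero hz L0) (loc2pos h3).ne' ?_
      simp only [n, hQ z.1, loc2w, Prod.smul_fst, Prod.smul_snd, smul_eq_mul, Prod.fst_add,
        Prod.snd_add, Prod.fst_sub, Prod.snd_sub] at this ⊢
      linarith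
  obtain ⟨s, _⟩ := z
  obtain rfl := hz
  have h6 : (s - a) * (b - s) = r * (max ((s - a) * (b - s)) 0 + κ) :=
    smul_left_injective ℝ h3 (by simpa [hQ s, n0, ← add_smul, smul_smul] using e)
  have h7 : 0 ≤ (s - a) * (b - s) := h6 ▸ mul_nonneg hr.1 (add_nonneg (le_max_right _ _) hκ.le)
  rw [max_eq_left h7] at h6
  refine ⟨⟨⟨?_, ?_⟩, rfl⟩, hr.2.lt_of_ne fun c => ?_⟩
  · exact le_of_not_gt fun c => by nlinarith
  · exact le_of_not_gt fun c => by nlinarith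
  · rw [c] at h6
    linarith

theorem loc2 : LocP (ContinuousLinearMap.inl ℝ ℝ ℝ) := fun I y hy h => by
  have sub : ∀ n ∈ I, Icc (2 * n : ℝ) (2 * n + 1) ⊆ KI I := fun n hn => subset_biUnion_of_mem
    (u := fun n : ℕ => Icc (2 * n : ℝ) (2 * n + 1)) hn
  choose! F hF using fun n hn => loc2one (y := y) (lt_add_one _) (fun t ht => hy t (sub n hn ht))
    (h n hn).1 (h n hn).2.1 (h n hn).2.2.1 (h n hn).2.2.2
  let G := fun z : ℝ × ℝ => F ⌊(z.1 + 1 / 2) / 2⌋₊ z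
  have hG : ∀ n : ℕ, ∀ t ∈ Icc (2 * n : ℝ) (2 * n + 1), G =ᶠ[𝓝 (t, 0)] F n := fun n t ht => by
    filter_upwards [continuousAt_fst.eventually (Ioo_mem_nhds (a := (2 * n - 1 / 2 : ℝ))
      (b := 2 * n + 3 / 2) (x := (t, (0 : ℝ)).1) (by linarith [ht.1]) (by linarith [ht.2]))] with z hz
    exact congrArg (F · z) ((Nat.floor_eq_iff (by linarith [hz.1, n.cast_nonneg (α := ℝ)])).2
      ⟨by linarith [hz.1], by linarith [hz.2]⟩)
  have c : ContinuousOn G {z | Loc2G y G (KI I) z} := fun z hz => hz.1.continuousWithinAt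
  refine ⟨{z | Loc2G y G (KI I) z}, eventually_nhdsSet_iff_forall.2 ?_, fun z => (G z).1,
    fun z => (G z).2.1, fun z => (G z).2.2, c.fst, c.snd.fst, c.snd.snd, fun t ht => ?_,
    fun z hz κ hκ r hr r' hr' h e => ?_⟩
  · rintro _ ⟨t, ht, rfl⟩
    obtain ⟨n, hn, ht⟩ := mem_iUnion₂.1 ht
    filter_upwards [(hF n hn t ht).2, (hG n t ht).eventuallyEq_nhds] with z h1 h2
    refine ⟨h1.1.congr h2.symm, fun κ hκ r hr r' hr' h e => ?_⟩
    have := h1.2 κ hκ r hr r' hr' h (h2.eq_of_nhds ▸ e)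
    exact ⟨⟨sub n hn this.1.1, this.1.2⟩, this.2⟩
  · obtain ⟨n, hn, ht⟩ := mem_iUnion₂.1 ht
    have := (hF n hn t ht).1
    rwa [← (hG n t ht).eq_of_nhds] at this
  · have := hz.2 κ hκ r hr r' hr' h e
    exact ⟨⟨z.1, this.1.1, Prod.ext rfl this.1.2.symm⟩, this.2⟩

end Pool.Agent.MP_e1dc65_gt.T1
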